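import Pool.Agent.N167.TR.Lift
import Pool.Agent.N167.DY.Boxes

/-! The boxes of parameters for all `D ≥ 4`. -/

set_option linter.unusedVariables false

namespace Pool.Agent.N167.TR

theorem p3_1 (z μ y : ℝ) (hz : 0 ≤ z) (hμ : 0 < μ) (hy : 0 ≤ y) (hy1 : y ≤ 1)
    (h : (103/100) * y ^ 2 = z + (3/100) + (17/20) * μ) :
    0 ≤ (39/10) / 4 * (y ^ 2 - (1) * z * (1 - (5/9) * (1 - z))) - μ * z := by
  have hz1 : z ≤ (103/100) - (3/100) - (17/20) * μ := by nlinarith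
  have hy2 : y ^ 2 = (z + (3/100) + (17/20) * μ) / (103/100) := by rw [← h]; ring
  rw [hy2]
  nlinarith [mul_nonneg hz hμ.le, mul_nonneg (sub_nonneg.2 hz1) hμ.le, mul_nonneg (sub_nonneg.2 hz1) hz, mul_nonneg (sub_nonneg.2 hz1) (sub_nonneg.2 hz1)]

theorem ui_1 (x : ℝ) (hx : 0 ≤ x) (hx1 : x ≤ 1) :
    (1 - x) ^ 2 ≤ (1) * (1 - (5/9) * x) * ((103/100) * (1 - (5/9) * x) ^ 2 - (3/100)) := by
  nlinarith [mul_nonneg hx (sub_nonneg.2 hx1), mul_nonneg hx (mul_nonneg hx (sub_nonneg.2 hx1)), mul_nonneg hx (mul_nonneg (sub_nonneg.2 hx1) (sub_nonneg.2 hx1)), mul_nonneg hx (mul_nonneg hx hx)]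

theorem reg_1 (D : ℝ) (hD : 4 ≤ D) : Reg D (1) ((39/10) / 4) (103/100) (3/100) (5/9) (17/20) (1/100) :=
  lift hD DY.reg_1 (by norm_num) DY.p0_1 p3_1 ui_1

theorem p3_2 (z μ y : ℝ) (hz : 0 ≤ z) (hμ : 0 < μ) (hy : 0 ≤ y) (hy1 : y ≤ 1)
    (h : (966/1000) * y ^ 2 = z + (18/1000) + (78/100) * μ) :
    0 ≤ (15/4) / 4 * (y ^ 2 - (107/100) * z * (1 - (58/100) * (1 - z))) - μ * z := by
  have hz1 : z ≤ (966/1000) - (18/1000) - (78/100) * μ := by nlinarith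
  have hy2 : y ^ 2 = (z + (18/1000) + (78/100) * μ) / (966/1000) := by rw [← h]; ring
  rw [hy2]
  nlinarith [mul_nonneg hz hμ.le, mul_nonneg (sub_nonneg.2 hz1) hμ.le, mul_nonneg (sub_nonneg.2 hz1) hz, mul_nonneg (sub_nonneg.2 hz1) (sub_nonneg.2 hz1)]

theorem ui_2 (x : ℝ) (hx : 0 ≤ x) (hx1 : x ≤ 1) :
    (1 - x) ^ 2 ≤ (107/100) * (1 - (58/100) * x) * ((966/1000) * (1 - (58/100) * x) ^ 2 - (18/1000)) := by
  nlinarith [mul_nonneg hx (sub_nonneg.2 hx1), mul_nonneg hx (mul_nonneg hx (sub_nonneg.2 hx1)), mul_nonneg hx (mul_nonneg (sub_nonneg.2 hx1) (sub_nonneg.2 hx1)), mul_nonneg hx (mul_nonneg hx hx)]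

theorem reg_2 (D : ℝ) (hD : 4 ≤ D) : Reg D (107/100) ((15/4) / 4) (966/1000) (18/1000) (58/100) (78/100) (1/100) :=
  lift hD DY.reg_2 (by norm_num) DY.p0_2 p3_2 ui_2

theorem p3_3 (z μ y : ℝ) (hz : 0 ≤ z) (hμ : 0 < μ) (hy : 0 ≤ y) (hy1 : y ≤ 1)
    (h : (857/1000) * y ^ 2 = z + (24/1000) + (3/5) * μ) :
    0 ≤ (15/4) / 4 * (y ^ 2 - (129/100) * z * (1 - (61/100) * (1 - z))) - μ * z := by
  have hz1 : z ≤ (857/1000) - (24/1000) - (3/5) * μ := by nlinarith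
  have hy2 : y ^ 2 = (z + (24/1000) + (3/5) * μ) / (857/1000) := by rw [← h]; ring
  rw [hy2]
  nlinarith [mul_nonneg hz hμ.le, mul_nonneg (sub_nonneg.2 hz1) hμ.le, mul_nonneg (sub_nonneg.2 hz1) hz, mul_nonneg (sub_nonneg.2 hz1) (sub_nonneg.2 hz1)]

theorem ui_3 (x : ℝ) (hx : 0 ≤ x) (hx1 : x ≤ 1) :
    (1 - x) ^ 2 ≤ (129/100) * (1 - (61/100) * x) * ((857/1000) * (1 - (61/100) * x) ^ 2 - (24/1000)) := by
  nlinarith [mul_nonneg hx (sub_nonneg.2 hx1), mul_nonneg hx (mul_nonneg hx (sub_nonneg.2 hx1)), mul_nonneg hx (mul_nonneg (sub_nonneg.2 hx1) (sub_nonneg.2 hx1)), mul_nonneg hx (mul_nonneg hx hx)]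

theorem reg_3 (D : ℝ) (hD : 4 ≤ D) : Reg D (129/100) ((15/4) / 4) (857/1000) (24/1000) (61/100) (3/5) (1/100) :=
  lift hD DY.reg_3 (by norm_num) DY.p0_3 p3_3 ui_3

theorem p3_4 (z μ y : ℝ) (hz : 0 ≤ z) (hμ : 0 < μ) (hy : 0 ≤ y) (hy1 : y ≤ 1)
    (h : (104/100) * y ^ 2 = z + (356/1000) + (1/2) * μ) :
    0 ≤ (15/4) / 4 * (y ^ 2 - (156/100) * z * (1 - (2/5) * (1 - z))) - μ * z := by
  have hz1 : z ≤ (104/100) - (356/1000) - (1/2) * μ := by nlinarith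
  have hy2 : y ^ 2 = (z + (356/1000) + (1/2) * μ) / (104/100) := by rw [← h]; ring
  rw [hy2]
  nlinarith [mul_nonneg hz hμ.le, mul_nonneg (sub_nonneg.2 hz1) hμ.le, mul_nonneg (sub_nonneg.2 hz1) hz, mul_nonneg (sub_nonneg.2 hz1) (sub_nonneg.2 hz1)]

theorem ui_4 (x : ℝ) (hx : 0 ≤ x) (hx1 : x ≤ 1) :
    (1 - x) ^ 2 ≤ (156/100) * (1 - (2/5) * x) * ((104/100) * (1 - (2/5) * x) ^ 2 - (356/1000)) := by
  nlinarith [mul_nonneg hx (sub_nonneg.2 hx1), mul_nonneg hx (mul_nonneg hx (sub_nonneg.2 hx1)), mul_nonneg hx (mul_nonneg (sub_nonneg.2 hx1) (sub_nonneg.2 hx1)), mul_nonneg hx (mul_nonneg hx hx)]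

theorem reg_4 (D : ℝ) (hD : 4 ≤ D) : Reg D (156/100) ((15/4) / 4) (104/100) (356/1000) (2/5) (1/2) (1/100) :=
  lift hD DY.reg_4 (by norm_num) DY.p0_4 p3_4 ui_4

theorem p3_5 (z μ y : ℝ) (hz : 0 ≤ z) (hμ : 0 < μ) (hy : 0 ≤ y) (hy1 : y ≤ 1)
    (h : (93/100) * y ^ 2 = z + (34/100) + (2/5) * μ) :
    0 ≤ (36/10) / 4 * (y ^ 2 - (189/100) * z * (1 - (36/100) * (1 - z))) - μ * z := by
  have hz1 : z ≤ (93/100) - (34/100) - (2/5) * μ := by nlinarith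
  have hy2 : y ^ 2 = (z + (34/100) + (2/5) * μ) / (93/100) := by rw [← h]; ring
  rw [hy2]
  nlinarith [mul_nonneg hz hμ.le, mul_nonneg (sub_nonneg.2 hz1) hμ.le, mul_nonneg (sub_nonneg.2 hz1) hz, mul_nonneg (sub_nonneg.2 hz1) (sub_nonneg.2 hz1)]

theorem ui_5 (x : ℝ) (hx : 0 ≤ x) (hx1 : x ≤ 1) :
    (1 - x) ^ 2 ≤ (189/100) * (1 - (36/100) * x) * ((93/100) * (1 - (36/100) * x) ^ 2 - (34/100)) := by
  nlinarith [mul_nonneg hx (sub_nonneg.2 hx1), mul_nonneg hx (mul_nonneg hx (sub_nonneg.2 hx1)), mul_nonneg hx (mul_nonneg (sub_nonneg.2 hx1) (sub_nonneg.2 hx1)), mul_nonneg hx (mul_nonneg hx hx)]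

theorem reg_5 (D : ℝ) (hD : 4 ≤ D) : Reg D (189/100) ((36/10) / 4) (93/100) (34/100) (36/100) (2/5) (1/100) :=
  lift hD DY.reg_5 (by norm_num) DY.p0_5 p3_5 ui_5

theorem p3_6 (z μ y : ℝ) (hz : 0 ≤ z) (hμ : 0 < μ) (hy : 0 ≤ y) (hy1 : y ≤ 1)
    (h : (80/100) * y ^ 2 = z + (345/1000) + (1/4) * μ) :
    0 ≤ (35/10) / 4 * (y ^ 2 - (259/100) * z * (1 - (3/10) * (1 - z))) - μ * z := by
  have hz1 : z ≤ (80/100) - (345/1000) - (1/4) * μ := by nlinarith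
  have hy2 : y ^ 2 = (z + (345/1000) + (1/4) * μ) / (80/100) := by rw [← h]; ring
  rw [hy2]
  nlinarith [mul_nonneg hz hμ.le, mul_nonneg (sub_nonneg.2 hz1) hμ.le, mul_nonneg (sub_nonneg.2 hz1) hz, mul_nonneg (sub_nonneg.2 hz1) (sub_nonneg.2 hz1)]

theorem ui_6 (x : ℝ) (hx : 0 ≤ x) (hx1 : x ≤ 1) :
    (1 - x) ^ 2 ≤ (259/100) * (1 - (3/10) * x) * ((80/100) * (1 - (3/10) * x) ^ 2 - (345/1000)) := by
  nlinarith [mul_nonneg hx (sub_nonneg.2 hx1), mul_nonneg hx (mul_nonneg hx (sub_nonneg.2 hx1)), mul_nonneg hx (mul_nonneg (sub_nonneg.2 hx1) (sub_nonneg.2 hx1)), mul_nonneg hx (mul_nonneg hx hx)]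

theorem reg_6 (D : ℝ) (hD : 4 ≤ D) : Reg D (259/100) ((35/10) / 4) (80/100) (345/1000) (3/10) (1/4) (1/100) :=
  lift hD DY.reg_6 (by norm_num) DY.p0_6 p3_6 ui_6

/-- For every `κ > 1` and `D ≥ 4` there is an invariant region with `K < κ` and
`κ s₀³ ≤ K`, `s₀ < 1`. -/
theorem reg_exists (D κ : ℝ) (hD : 4 ≤ D) (h1 : 1 < κ) :
    ∃ K s₀ α b q c ε : ℝ, Reg D K s₀ α b q c ε ∧ K < κ ∧ κ * s₀ ^ 3 ≤ K := by
  rcases le_total κ (1075/1000) with h | h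
  · exact ⟨_, _, _, _, _, _, _, reg_1 D hD, by linarith, by norm_num; linarith⟩
  rcases le_total κ (1295/1000) with h | h
  · exact ⟨_, _, _, _, _, _, _, reg_2 D hD, by linarith, by norm_num; linarith⟩
  rcases le_total κ (1563/1000) with h | h
  · exact ⟨_, _, _, _, _, _, _, reg_3 D hD, by linarith, by norm_num; linarith⟩
  rcases le_total κ (1892/1000) with h | h
  · exact ⟨_, _, _, _, _, _, _, reg_4 D hD, by linarith, by norm_num; linarith⟩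
  rcases le_total κ (2592/1000) with h | h
  · exact ⟨_, _, _, _, _, _, _, reg_5 D hD, by linarith, by norm_num; linarith⟩
  rcases le_total κ (386/100) with h | h
  · exact ⟨_, _, _, _, _, _, _, reg_6 D hD, by linarith, by norm_num; linarith⟩
  refine ⟨κ * (9 / 10) ^ 3, 9 / 10, _, _, _, _, _, simple (by linarith) ?_ le_rfl ?_, ?_, le_rfl⟩
  · norm_num; linarith
  · nlinarith
  · norm_num; linarith

end Pool.Agent.N167.TR
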