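import Pool.Agent.N167.TR.Def

/-!
# The dyadic shell model (chain) of the Navier–Stokes equations

`X_n' = f_n - ν 4^n X_n + 2^{β (n-1)} X_{n-1}^2 - 2^{β n} X_n X_{n+1}`, `n ≥ 0`, `X_{-1} = 0`.
-/

namespace Pool.Agent.N167.TR

open Set

/-- The right-hand side of the Desnyansky–Novikov (Katz–Pavlović) shell model on shell `n`:
`f_n - ν 4^n X_n + 2^{β (n-1)} X_{n-1}^2 - 2^{β n} X_n X_{n+1}` (`X_{-1} = 0`). -/
noncomputable def chainRhs (β ν : ℝ) (f X : ℕ → ℝ) : ℕ → ℝ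
  | 0 => f 0 - ν * X 0 - X 0 * X 1
  | n + 1 => f (n + 1) - ν * 4 ^ (n + 1) * X (n + 1) + (2 : ℝ) ^ (β * (n : ℝ)) * X n ^ 2
      - (2 : ℝ) ^ (β * ((n : ℝ) + 1)) * X (n + 1) * X (n + 2)

/-- `X` is a solution on `[0, ∞)` (component by component) of the shell model with force `f` and
initial datum `x`. -/
def IsChainSol (β ν : ℝ) (f : ℕ → ℝ → ℝ) (x : ℕ → ℝ) (X : ℕ → ℝ → ℝ) : Prop :=
  (∀ n, X n 0 = x n) ∧
  ∀ n, ∀ t, 0 ≤ t →
    HasDerivWithinAt (X n) (chainRhs β ν (fun m => f m t) (fun m => X m t) n) (Ici 0) t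

end Pool.Agent.N167.TR
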