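import Pool.Agent.N167.TR.Final
import Pool.Agent.N167.TR.ChainDef

namespace Pool.Agent.N167.TR

open Set

theorem rep_len (j : List (Fin 1)) : List.replicate j.length (0 : Fin 1) = j := by
  apply List.eq_replicate_iff.2 ⟨rfl, fun b _ => Subsingleton.elim _ _⟩ |>.symm

/-- chain and tree with `M = 1`: equality of the right-hand sides -/
theorem rhs_chain (β ν : ℝ) (f X : ℕ → ℝ) (j : List (Fin 1)) :
    rhs ((2:ℝ) ^ β) 4 ν (fun i => f i.length) (fun i => X i.length) j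
      = chainRhs β ν f X j.length := by
  have hpow : ∀ n : ℕ, ((2:ℝ) ^ β) ^ n = (2:ℝ) ^ (β * (n:ℝ)) := fun n => by
    rw [Real.rpow_mul (by norm_num), Real.rpow_natCast]
  cases j with
  | nil => simp [rhs, inflow, chainRhs]
  | cons k i =>
    simp only [rhs, inflow, chainRhs, List.length_cons, Finset.univ_unique, Fin.default_eq_zero,
      Finset.sum_singleton]
    rw [hpow, hpow]
    push_cast
    ring_nf

theorem chain_of_tree {β ν : ℝ} {f : ℕ → ℝ → ℝ} {x : ℕ → ℝ} {X : List (Fin 1) → ℝ → ℝ}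
    (h : IsSol ((2:ℝ) ^ β) 4 ν (fun i t => f i.length t) (fun i => x i.length) X) :
    IsChainSol β ν f x (fun n => X (List.replicate n 0)) := by
  have hX : X = fun i => (fun n => X (List.replicate n 0)) i.length := by
    funext i
    simp only [rep_len]
  refine ⟨fun n => by simpa using h.1 (List.replicate n 0), fun n t ht => ?_⟩
  have h1 := h.2 (List.replicate n 0) t ht
  have h2 := rhs_chain β ν (fun m => f m t) (fun m => X (List.replicate m 0) t)
    (List.replicate n 0)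
  simp only [rep_len, List.length_replicate] at h2
  rw [← h2]
  exact h1

theorem tree_of_chain {β ν : ℝ} {f : ℕ → ℝ → ℝ} {x : ℕ → ℝ} {X : ℕ → ℝ → ℝ}
    (h : IsChainSol β ν f x X) :
    IsSol ((2:ℝ) ^ β) 4 ν (fun (i : List (Fin 1)) t => f i.length t) (fun i => x i.length)
      (fun i => X i.length) := by
  refine ⟨fun j => h.1 j.length, fun j t ht => ?_⟩
  have h1 := h.2 j.length t ht
  rw [← rhs_chain β ν (fun m => f m t) (fun m => X m t) j] at h1
  exact h1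

theorem chain_case {β ν : ℝ} (hβ : β ≤ 3) (hν : 0 < ν) {F : ℕ → ℝ} {f : ℕ → ℝ → ℝ} {x : ℕ → ℝ}
    (hF : Rapid F) (hfc : ∀ n, ContinuousOn (f n) (Ici 0))
    (hf : ∀ n, ∀ t, 0 ≤ t → 0 ≤ f n t ∧ f n t ≤ F n) (hx0 : ∀ n, 0 ≤ x n)
    (hxs : Summable fun n => x n ^ 2) :
    ∃ X : ℕ → ℝ → ℝ, IsChainSol β ν f x X ∧ (∀ n, ∀ t, 0 ≤ t → 0 ≤ X n t) ∧
      (∀ τ : ℝ, 0 < τ → ∃ a : ℕ → ℝ, Rapid a ∧ ∀ n, ∀ t, τ ≤ t → X n t ≤ a n) ∧
      (Rapid x → ∃ a : ℕ → ℝ, Rapid a ∧ ∀ n, ∀ t, 0 ≤ t → X n t ≤ a n) ∧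
      ∀ Z : ℕ → ℝ → ℝ, IsChainSol β ν f x Z → ∀ n, ∀ t, 0 ≤ t → Z n t = X n t := by
  have hB : (0:ℝ) < (2:ℝ) ^ β := Real.rpow_pos_of_pos (by norm_num) _
  have hB2 : ((2:ℝ) ^ β) ^ 2 ≤ (4:ℝ) ^ 3 := by
    rw [← Real.rpow_natCast, ← Real.rpow_mul (by norm_num)]
    have h1 : (2:ℝ) ^ (β * ((2:ℕ):ℝ)) ≤ (2:ℝ) ^ (6:ℝ) :=
      Real.rpow_le_rpow_of_exponent_le (by norm_num) (by push_cast; linarith)
    have h2 : (2:ℝ) ^ (6:ℝ) = 64 := by
      rw [show (6:ℝ) = ((6:ℕ):ℝ) by norm_num, Real.rpow_natCast]; norm_num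
    rw [h2] at h1
    linarith
  have hforce : Force F (fun (i : List (Fin 1)) t => f i.length t) :=
    ⟨hF, fun j => hfc _, fun j t ht => hf _ t ht⟩
  have hsum : Summable fun i : List (Fin 1) => x i.length ^ 2 := by
    have hinj : Function.Injective (fun i : List (Fin 1) => i.length) := by
      intro i i' h
      rw [← rep_len i, ← rep_len i']
      simp only at h
      rw [h]
    exact hxs.comp_injective hinj
  obtain ⟨X, hX, hX0, hXs, hXu⟩ := energy_case (M := 1) (D := 4) one_pos hB hν (by norm_num)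
    (Or.inl ⟨rfl, le_rfl, hB2⟩) hforce (fun j => hx0 j.length) hsum
  refine ⟨fun n => X (List.replicate n 0), chain_of_tree hX, fun n t ht => hX0 _ t ht, ?_, ?_, ?_⟩
  · intro τ hτ
    obtain ⟨a, ha, hb⟩ := hXs τ hτ
    exact ⟨a, ha, fun n t ht => by simpa using hb (List.replicate n 0) t ht⟩
  · intro hxr
    obtain ⟨Y, hY, _, ⟨a, ha, hb⟩, _⟩ := smooth_case (M := 1) (D := 4) one_pos hB hν (by norm_num)
      (Or.inl ⟨le_rfl, by push_cast; linarith⟩) hforce (fun j => hx0 j.length) hxr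
      (fun j => le_rfl)
    refine ⟨a, ha, fun n t ht => ?_⟩
    have h1 := hXu Y hY (List.replicate n 0) t ht
    show X (List.replicate n 0) t ≤ a n
    rw [← h1]
    simpa using hb (List.replicate n 0) t ht
  · intro Z hZ n t ht
    have := hXu _ (tree_of_chain hZ) (List.replicate n 0) t ht
    simpa using this

end Pool.Agent.N167.TR
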