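import Pool.Agent.N167.TR.Def

/-! Statements of the parts of project TR (helper167). -/

namespace Pool.Agent.N167.TR

open Set

/-- TR/0: elementary properties of the sum over a generation. -/
def S_gen : Prop :=
  ∀ M : ℕ,
    (∀ (n : ℕ) (g h : List (Fin M) → ℝ), gen n (fun j => g j + h j) = gen n g + gen n h) ∧
    (∀ (n : ℕ) (c : ℝ) (g : List (Fin M) → ℝ), gen n (fun j => c * g j) = c * gen n g) ∧
    (∀ (n : ℕ) (g h : List (Fin M) → ℝ), (∀ j : List (Fin M), j.length = n → g j ≤ h j) →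
      gen n g ≤ gen n h) ∧
    (∀ (n : ℕ) (g : List (Fin M) → ℝ) (j : List (Fin M)), (∀ i : List (Fin M), 0 ≤ g i) →
      j.length = n → g j ≤ gen n g) ∧
    (∀ (n : ℕ) (c : ℝ), gen n (fun _ : List (Fin M) => c) = (M : ℝ) ^ n * c) ∧
    (∀ (n : ℕ) (g g' : List (Fin M) → ℝ → ℝ) (s : Set ℝ) (t : ℝ),
      (∀ j : List (Fin M), j.length = n → HasDerivWithinAt (g j) (g' j t) s t) →
      HasDerivWithinAt (fun r => gen n (fun j => g j r)) (gen n (fun j => g' j t)) s t) ∧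
    (∀ (x : List (Fin M) → ℝ), (∀ j, 0 ≤ x j) → Summable (fun j => x j ^ 2) →
      ∀ N : ℕ, ∑ n ∈ Finset.range N, gen n (fun j => x j ^ 2) ≤ ∑' j, x j ^ 2)

/-- TR/1: Galerkin system with clamped field (Picard–Lindelöf). -/
def S_clamped : Prop :=
  ∀ (M : ℕ) (B D ν : ℝ) (f : List (Fin M) → ℝ → ℝ) (x : List (Fin M) → ℝ) (A : ℝ) (N : ℕ)
    (T : ℝ), 0 < T → 0 ≤ A → (∀ j, ContinuousOn (f j) (Icc 0 T)) →
    ∃ X : List (Fin M) → ℝ → ℝ, (∀ j, N < j.length → ∀ t, X j t = 0) ∧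
      (∀ j, j.length ≤ N → X j 0 = x j) ∧
      ∀ j, j.length ≤ N → ∀ t ∈ Icc (0 : ℝ) T,
        HasDerivWithinAt (X j)
          (rhs B D ν (fun i => f i t) (fun i => clamp A (X i t)) j) (Icc 0 T) t

/-- TR/2: Galerkin solutions with the energy bound. -/
def S_gal : Prop :=
  S_gen → S_clamped → ∀ (M : ℕ) (B D ν : ℝ) (f : List (Fin M) → ℝ → ℝ) (x : List (Fin M) → ℝ)
    (E G : ℝ) (N : ℕ) (T : ℝ), 0 < B → 1 ≤ D → 0 < ν → 0 < T →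
    (∀ j, ContinuousOn (f j) (Icc 0 T)) → (∀ j, ∀ t ∈ Icc (0 : ℝ) T, 0 ≤ f j t) →
    (∀ j, 0 ≤ x j) →
    ∑ n ∈ Finset.range (N + 1), gen n (fun j => x j ^ 2) ≤ E →
    (∀ t ∈ Icc (0 : ℝ) T, ∑ n ∈ Finset.range (N + 1), gen n (fun j => f j t ^ 2) ≤ G) →
    G < ν ^ 2 * E →
    ∃ X : List (Fin M) → ℝ → ℝ, (∀ j, N < j.length → ∀ t, X j t = 0) ∧
      (∀ j, j.length ≤ N → X j 0 = x j) ∧ SolUpTo B D ν f N T X ∧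
      (∀ j, ∀ t ∈ Icc (0 : ℝ) T, 0 ≤ X j t) ∧
      (∀ t ∈ Icc (0 : ℝ) T, ∑ n ∈ Finset.range (N + 1), gen n (fun j => X j t ^ 2) ≤ E)

/-- TR/3: limits of Galerkin solutions (compactness, e.g. an ultrafilter limit). -/
def S_exist : Prop :=
  ∀ (M : ℕ) (B D ν : ℝ) (f : List (Fin M) → ℝ → ℝ) (x c : List (Fin M) → ℝ) (N₀ : ℕ)
    (X : ℕ → List (Fin M) → ℝ → ℝ),
    (∀ j, ContinuousOn (f j) (Ici 0)) →
    (∀ N, N₀ ≤ N → ∀ j, j.length ≤ N → X N j 0 = x j) →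
    (∀ N, N₀ ≤ N → SolUpTo B D ν f N N (X N)) →
    (∀ N, N₀ ≤ N → ∀ j, ∀ t ∈ Icc (0 : ℝ) N, 0 ≤ X N j t ∧ X N j t ≤ c j) →
    ∃ Y : List (Fin M) → ℝ → ℝ, IsSol B D ν f x Y ∧
      ∀ j, ∀ t, 0 ≤ t → 0 ≤ Y j t ∧ Y j t ≤ c j

/-- TR/4: comparison of two nonnegative solutions, weight `2^{-n}`. -/
def S_psi : Prop :=
  S_gen → ∀ (M : ℕ) (B D ν : ℝ) (f : List (Fin M) → ℝ → ℝ) (N : ℕ) (T η : ℝ)
    (X Z : List (Fin M) → ℝ → ℝ), 0 ≤ B → 0 ≤ D → 0 ≤ ν → 0 ≤ T →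
    SolUpTo B D ν f N T X → SolUpTo B D ν f N T Z →
    (∀ j, j.length ≤ N + 1 → ∀ t ∈ Icc (0 : ℝ) T, 0 ≤ X j t ∧ 0 ≤ Z j t) →
    (∀ t ∈ Icc (0 : ℝ) T,
      (1 / 2 : ℝ) ^ N * B ^ N *
        gen N (fun j => X j t * Z j t * ∑ k : Fin M, (X (k :: j) t + Z (k :: j) t)) ≤ η) →
    ∀ t ∈ Icc (0 : ℝ) T,
      ∑ n ∈ Finset.range (N + 1), (1 / 2 : ℝ) ^ n * gen n (fun j => (X j t - Z j t) ^ 2) ≤
      ∑ n ∈ Finset.range (N + 1), (1 / 2 : ℝ) ^ n * gen n (fun j => (X j 0 - Z j 0) ^ 2)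
        + 2 * η * t

/-- TR/5: positivity, energy bound, and times with finite enstrophy, for arbitrary solutions. -/
def S_energy : Prop :=
  S_gen → ∀ (M : ℕ) (B D ν : ℝ) (F : ℕ → ℝ) (f : List (Fin M) → ℝ → ℝ)
    (x : List (Fin M) → ℝ) (Z : List (Fin M) → ℝ → ℝ), 0 < B → 1 < D → 0 < ν →
    Force F f → (∀ j, 0 ≤ x j) → Summable (fun j => x j ^ 2) → IsSol B D ν f x Z →
    (∀ j, ∀ t, 0 ≤ t → 0 ≤ Z j t) ∧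
    (∃ E : ℝ, ∀ N : ℕ, ∀ t, 0 ≤ t →
      ∑ n ∈ Finset.range (N + 1), gen n (fun j => Z j t ^ 2) ≤ E) ∧
    (∀ τ : ℝ, 0 < τ → ∃ t₀ : ℝ, 0 < t₀ ∧ t₀ ≤ τ ∧ ∃ C : ℝ, ∀ N : ℕ,
      ∑ n ∈ Finset.range (N + 1), D ^ n * gen n (fun j => Z j t₀ ^ 2) ≤ C)

/-- TR/6: weak-strong uniqueness: a solution which is rapidly decreasing for positive times is the
only solution. -/
def S_ws : Prop :=
  S_gen → S_psi → ∀ (M : ℕ) (B D ν E : ℝ) (f : List (Fin M) → ℝ → ℝ)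
    (x : List (Fin M) → ℝ) (S Z : List (Fin M) → ℝ → ℝ), 0 < B → 0 < D → 0 < ν →
    IsSol B D ν f x S → IsSol B D ν f x Z →
    (∀ j, ∀ t, 0 ≤ t → 0 ≤ S j t ∧ 0 ≤ Z j t) →
    (∀ N : ℕ, ∀ t, 0 ≤ t → ∑ n ∈ Finset.range (N + 1), gen n (fun j => S j t ^ 2) ≤ E) →
    (∀ N : ℕ, ∀ t, 0 ≤ t → ∑ n ∈ Finset.range (N + 1), gen n (fun j => Z j t ^ 2) ≤ E) →
    (∀ τ : ℝ, 0 < τ → ∃ a : ℕ → ℝ, Rapid a ∧ ∀ j, ∀ t, τ ≤ t → S j t ≤ a j.length) →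
    ∀ j, ∀ t, 0 ≤ t → Z j t = S j t

/-- TR/7: bootstrap for sequences. -/
def S_boot : Prop :=
  ∀ (B D ν θ : ℝ) (a A h : ℕ → ℝ) (N₀ : ℕ), 0 < B → 1 < D → 0 < ν → θ < 1 →
    (∀ n, 0 ≤ a n) → (∀ n, a n ≤ A n) → (∀ n, 0 ≤ h n) → Rapid h →
    (∀ n, a (n + 1) ≤ h (n + 1) + B ^ n * a n ^ 2 / (ν * D ^ (n + 1))) →
    (∀ n, N₀ ≤ n → B / D * (B ^ n * A n) ≤ θ * (ν * D ^ (n + 1))) →
    Rapid a

/-- TR/8: smoothing. A nonnegative solution below an envelope `A` which is subcritical at infinity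
is rapidly decreasing for positive times (for all times if the datum is). -/
def S_smooth : Prop :=
  S_boot → ∀ (M : ℕ) (B D ν θ : ℝ) (F A : ℕ → ℝ) (N₀ : ℕ) (f : List (Fin M) → ℝ → ℝ)
    (x : List (Fin M) → ℝ) (X : List (Fin M) → ℝ → ℝ), 0 < B → 1 < D → 0 < ν → θ < 1 →
    Force F f → IsSol B D ν f x X →
    (∀ j, ∀ t, 0 ≤ t → 0 ≤ X j t ∧ X j t ≤ A j.length) →
    (∃ E : ℝ, ∀ j, ∀ t, 0 ≤ t → X j t ≤ E) →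
    (∀ n, N₀ ≤ n → B / D * (B ^ n * A n) ≤ θ * (ν * D ^ (n + 1))) →
    (∀ τ : ℝ, 0 < τ → ∃ a : ℕ → ℝ, Rapid a ∧ ∀ j, ∀ t, τ ≤ t → X j t ≤ a j.length) ∧
    (∀ y : ℕ → ℝ, Rapid y → (∀ j, x j ≤ y j.length) →
      ∃ a : ℕ → ℝ, Rapid a ∧ ∀ j, ∀ t, 0 ≤ t → X j t ≤ a j.length)

end Pool.Agent.N167.TR
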