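import Pool.Agent.N167.TR.Start
import Pool.Agent.N247.TR_Gen
import Pool.Agent.N769.TR.Gal
import Pool.Agent.N769.TR.Clamped
import Pool.Agent.N478.TR.Exist
import Pool.Agent.N721.TR.Psi
import Pool.Agent.N951.TR5
import Pool.Agent.N227.TR.WS
import Pool.Agent.N97.TR.Boot
import Pool.Agent.N27.TR.Smooth

namespace Pool.Agent.N167.TR

open Set Filter

variable {M : ℕ}

/-- Smoothness for positive times. -/
def Smoothing (X : List (Fin M) → ℝ → ℝ) : Prop :=
  ∀ τ : ℝ, 0 < τ → ∃ a : ℕ → ℝ, Rapid a ∧ ∀ j, ∀ t, τ ≤ t → X j t ≤ a j.length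

theorem node_exists (hM : 0 < M) (n : ℕ) : ∃ j : List (Fin M), j.length = n :=
  ⟨List.replicate n ⟨0, hM⟩, List.length_replicate⟩

theorem F_nonneg (hM : 0 < M) {F : ℕ → ℝ} {f : List (Fin M) → ℝ → ℝ} (hf : Force F f) (n : ℕ) :
    0 ≤ F n := by
  obtain ⟨j, hj⟩ := node_exists hM n
  have := hf.2.2 j 0 le_rfl
  rw [hj] at this
  linarith [this.1, this.2]

theorem force_sum (hM : 0 < M) {F : ℕ → ℝ} {f : List (Fin M) → ℝ → ℝ} (hf : Force F f) :
    ∃ G : ℝ, 0 ≤ G ∧ ∀ N : ℕ, ∀ t, 0 ≤ t →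
      ∑ n ∈ Finset.range (N + 1), gen n (fun j => f j t ^ 2) ≤ G := by
  have hM' : (1:ℝ) ≤ M := by exact_mod_cast hM
  have hg := N247.TR.main M
  obtain ⟨C, hC0, hC⟩ := rapid_bound hf.1 (show (0:ℝ) < 1 / (2 * M) by positivity)
  refine ⟨2 * C ^ 2, by positivity, fun N t ht => ?_⟩
  have h1 : ∀ n, gen n (fun j : List (Fin M) => f j t ^ 2) ≤ C ^ 2 * (1 / 2) ^ n := by
    intro n
    have h2 : gen n (fun j : List (Fin M) => f j t ^ 2)
        ≤ gen n (fun _ : List (Fin M) => (C * (1 / (2 * (M:ℝ))) ^ n) ^ 2) := by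
      apply hg.2.2.1
      intro j hj
      have h3 := hf.2.2 j t ht
      apply pow_le_pow_left₀ h3.1
      calc f j t ≤ F j.length := h3.2
        _ ≤ C * (1 / (2 * (M:ℝ))) ^ n := by rw [hj]; exact hC n
    rw [hg.2.2.2.2.1] at h2
    refine le_trans h2 ?_
    have h4' : ∀ ρ : ℝ, (M:ℝ) ^ n * (C * ρ ^ n) ^ 2 = C ^ 2 * (M * ρ ^ 2) ^ n := by
      intro ρ
      rw [mul_pow, mul_pow (M:ℝ), pow_right_comm ρ 2 n]
      ring
    have h4 := h4' (1 / (2 * (M:ℝ)))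
    rw [h4]
    apply mul_le_mul_of_nonneg_left _ (by positivity)
    apply pow_le_pow_left₀ (by positivity)
    have h5 : (M:ℝ) * (1 / (2 * (M:ℝ))) ^ 2 = 1 / (4 * M) := by field_simp; norm_num
    rw [h5, div_le_div_iff₀ (by positivity) (by norm_num)]
    linarith
  calc ∑ n ∈ Finset.range (N + 1), gen n (fun j => f j t ^ 2)
      ≤ ∑ n ∈ Finset.range (N + 1), C ^ 2 * (1 / 2) ^ n := Finset.sum_le_sum fun n _ => h1 n
    _ = C ^ 2 * ∑ n ∈ Finset.range (N + 1), (1 / 2 : ℝ) ^ n := by rw [Finset.mul_sum]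
    _ ≤ C ^ 2 * 2 := by
      apply mul_le_mul_of_nonneg_left _ (by positivity)
      have := sum_geometric_two_le (N + 1)
      simpa using this
    _ = _ := by ring

/-- Galerkin solutions bounded in the energy norm. -/
theorem gal (hM : 0 < M) {B D ν : ℝ} (hB : 0 < B) (hD : 1 < D) (hν : 0 < ν) {F : ℕ → ℝ}
    {f : List (Fin M) → ℝ → ℝ} {x : List (Fin M) → ℝ} (hf : Force F f) (hx0 : ∀ j, 0 ≤ x j)
    (hxs : Summable fun j => x j ^ 2) :
    ∃ E : ℝ, 0 ≤ E ∧ ∀ N : ℕ, 1 ≤ N →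
      ∃ X : List (Fin M) → ℝ → ℝ, (∀ j, N < j.length → ∀ t, X j t = 0) ∧
        (∀ j, j.length ≤ N → X j 0 = x j) ∧ SolUpTo B D ν f N N X ∧
        (∀ j, ∀ t ∈ Icc (0 : ℝ) N, 0 ≤ X j t) ∧
        (∀ t ∈ Icc (0 : ℝ) N, ∑ n ∈ Finset.range (N + 1), gen n (fun j => X j t ^ 2) ≤ E) := by
  obtain ⟨G, hG0, hG⟩ := force_sum hM hf
  have hts : 0 ≤ ∑' j, x j ^ 2 := tsum_nonneg fun j => sq_nonneg _
  set E : ℝ := ∑' j, x j ^ 2 + G / ν ^ 2 + 1 with hE
  have hE0 : 0 ≤ E := by positivity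
  refine ⟨E, hE0, fun N hN => ?_⟩
  have hTpos : (0:ℝ) < N := by exact_mod_cast hN
  refine N769.TR.t_gal N247.TR.main N769.TR.t_clamped M B D ν f x E G N N hB hD.le hν hTpos
    (fun j => (hf.2.1 j).mono fun t ht => ht.1) (fun j t ht => (hf.2.2 j t ht.1).1) hx0 ?_
    (fun t ht => hG N t ht.1) ?_
  · have h1 := (N247.TR.main M).2.2.2.2.2.2 x hx0 hxs (N + 1)
    have h2 : 0 ≤ G / ν ^ 2 := by positivity
    linarith
  · have h1 : ν ^ 2 * E = ν ^ 2 * (∑' j, x j ^ 2 + 1) + G := by rw [hE]; field_simp; ring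
    rw [h1]
    have h2 : 0 < ν ^ 2 * (∑' j, x j ^ 2 + 1) := by positivity
    linarith

theorem le_sqrt_of_energy {E : ℝ} {X : List (Fin M) → ℝ} (hX : ∀ j, 0 ≤ X j) {N : ℕ}
    (h : ∑ n ∈ Finset.range (N + 1), gen n (fun j => X j ^ 2) ≤ E) (j : List (Fin M))
    (hj : j.length ≤ N) : X j ≤ Real.sqrt E := by
  have hg := N247.TR.main M
  apply Real.le_sqrt_of_sq_le
  have h1 : X j ^ 2 ≤ gen j.length (fun j => X j ^ 2) :=
    hg.2.2.2.1 j.length (fun j => X j ^ 2) j (fun i => sq_nonneg _) rfl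
  have h0 : ∀ n, 0 ≤ gen n (fun j : List (Fin M) => X j ^ 2) := by
    intro n
    have h2 := hg.2.2.1 n (fun _ => 0) (fun j => X j ^ 2) (fun j _ => sq_nonneg _)
    rw [hg.2.2.2.2.1] at h2
    simpa using h2
  have h2 : gen j.length (fun j => X j ^ 2) ≤
      ∑ n ∈ Finset.range (N + 1), gen n (fun j => X j ^ 2) :=
    Finset.single_le_sum (f := fun n => gen n (fun j => X j ^ 2)) (fun n _ => h0 n)
      (Finset.mem_range.2 (by omega))
  linarith

/-- Existence of some solution for data of finite energy. -/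
theorem exist_energy (hM : 0 < M) {B D ν : ℝ} (hB : 0 < B) (hD : 1 < D) (hν : 0 < ν) {F : ℕ → ℝ}
    {f : List (Fin M) → ℝ → ℝ} {x : List (Fin M) → ℝ} (hf : Force F f) (hx0 : ∀ j, 0 ≤ x j)
    (hxs : Summable fun j => x j ^ 2) : ∃ X : List (Fin M) → ℝ → ℝ, IsSol B D ν f x X := by
  obtain ⟨E, hE0, hgal⟩ := gal hM hB hD hν hf hx0 hxs
  choose! X hX using hgal
  obtain ⟨Y, hY, _⟩ := N478.TR.t_exist M B D ν f x (fun _ => Real.sqrt E) 1 X hf.2.1
    (fun N hN => (hX N hN).2.1) (fun N hN => (hX N hN).2.2.1) (fun N hN j t ht => by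
      obtain ⟨h1, h2, h3, h4, h5⟩ := hX N hN
      refine ⟨h4 j t ht, ?_⟩
      rcases le_or_gt j.length N with hj | hj
      · exact le_sqrt_of_energy (fun j => h4 j t ht) (h5 t ht) j hj
      · rw [h1 j hj t]; exact Real.sqrt_nonneg _)
  exact ⟨Y, hY⟩

/-- Existence of a smooth solution from data which fit into an invariant region. -/
theorem exist_of_start (hM : 0 < M) {B D ν : ℝ} (hB : 0 < B) (hD : 1 < D) (hν : 0 < ν)
    {y F : ℕ → ℝ} (hS : Start M B D ν y F)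
    {f : List (Fin M) → ℝ → ℝ} {x : List (Fin M) → ℝ} (hf : Force F f) (hx0 : ∀ j, 0 ≤ x j)
    (hxs : Summable fun j => x j ^ 2) (hxy : ∀ j, x j ≤ y j.length) :
    ∃ S : List (Fin M) → ℝ → ℝ, IsSol B D ν f x S ∧ Smoothing S ∧
      (Rapid y → ∃ a : ℕ → ℝ, Rapid a ∧ ∀ j, ∀ t, 0 ≤ t → S j t ≤ a j.length) := by
  obtain ⟨K, s₀, α, b, q, c, ε, m₀, θ, A, κ, μ, r, N₀, hReg, hAmp, hθ, hm1, hm2, hN₀, hθA, hyA,
    hFA⟩ := hS
  obtain ⟨E, hE0, hgal⟩ := gal hM hB hD hν hf hx0 hxs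
  choose! X hX using hgal
  have hm0 : 0 ≤ m₀ := by
    have h1 := hyA 0
    have h2 := hxy []
    have h3 := hx0 []
    simp only [List.length_nil] at h2
    have h4 := hAmp.A_pos 0
    by_contra hneg
    push Not at hneg
    nlinarith
  obtain ⟨S, hSsol, hSb⟩ := N478.TR.t_exist M B D ν f x (fun j => A j.length) (max N₀ 1) X hf.2.1
    (fun N hN => (hX N (le_trans (le_max_right _ _) hN)).2.1)
    (fun N hN => (hX N (le_trans (le_max_right _ _) hN)).2.2.1) (fun N hN j t ht => by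
      have hN1 : 1 ≤ N := le_trans (le_max_right _ _) hN
      obtain ⟨h1, h2, h3, h4, h5⟩ := hX N hN1
      refine ⟨h4 j t ht, ?_⟩
      refine region hM hReg hAmp (Nat.cast_nonneg N) (hN₀ N (le_trans (le_max_left _ _) hN)) hm1 hm2
        ?_ (fun i s hs => ⟨(hf.2.2 i s hs.1).1, le_trans (hf.2.2 i s hs.1).2 (hFA _)⟩) h1 h4 h3
        j t ht
      intro i
      rcases le_or_gt i.length N with hi | hi
      · rw [h2 i hi]; exact le_trans (hxy i) (hyA _)
      · rw [h1 i hi]; exact mul_nonneg hm0 (hAmp.A_pos _).le)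
  obtain ⟨_, ⟨E₁, hE₁⟩, _⟩ := N951.TR5.main N247.TR.main M B D ν F f x S hB hD hν hf hx0 hxs hSsol
  have hsm := N27.TR.t_smooth N97.TR.boot M B D ν θ F A N₀ f x S hB hD hν hθ hf hSsol hSb
    ⟨Real.sqrt E₁, fun j t ht => le_sqrt_of_energy (fun j => (hSb j t ht).1) (hE₁ j.length t ht) j
      le_rfl⟩ hθA
  exact ⟨S, hSsol, hsm.1, fun hy => hsm.2 y hy hxy⟩

/-- Uniqueness: a solution which is smooth for positive times is the only solution. -/
theorem uniq (hM : 0 < M) {B D ν : ℝ} (hB : 0 < B) (hD : 1 < D) (hν : 0 < ν)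
    {F : ℕ → ℝ} {f : List (Fin M) → ℝ → ℝ} {x : List (Fin M) → ℝ} (hf : Force F f)
    (hx0 : ∀ j, 0 ≤ x j) (hxs : Summable fun j => x j ^ 2) {S Z : List (Fin M) → ℝ → ℝ}
    (hS : IsSol B D ν f x S) (hSs : Smoothing S) (hZ : IsSol B D ν f x Z) :
    ∀ j, ∀ t, 0 ≤ t → Z j t = S j t := by
  obtain ⟨hS0, ⟨E₁, hE₁⟩, _⟩ := N951.TR5.main N247.TR.main M B D ν F f x S hB hD hν hf hx0 hxs hS
  obtain ⟨hZ0, ⟨E₂, hE₂⟩, _⟩ := N951.TR5.main N247.TR.main M B D ν F f x Z hB hD hν hf hx0 hxs hZ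
  exact N227.TR.WS.main N247.TR.main N721.TR.psi M B D ν (max E₁ E₂) f x S Z hB (by linarith) hν
    hS hZ (fun j t ht => ⟨hS0 j t ht, hZ0 j t ht⟩)
    (fun N t ht => le_trans (hE₁ N t ht) (le_max_left _ _))
    (fun N t ht => le_trans (hE₂ N t ht) (le_max_right _ _)) hSs

/-- time shift of a solution -/
theorem shift {B D ν : ℝ} {f : List (Fin M) → ℝ → ℝ} {x : List (Fin M) → ℝ}
    {Z : List (Fin M) → ℝ → ℝ} (hZ : IsSol B D ν f x Z) {t₀ : ℝ} (ht₀ : 0 ≤ t₀) :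
    IsSol B D ν (fun j t => f j (t₀ + t)) (fun j => Z j t₀) (fun j t => Z j (t₀ + t)) := by
  refine ⟨fun j => by simp, fun j t ht => ?_⟩
  have h1 := hZ.2 j (t₀ + t) (by linarith)
  have h2 : HasDerivWithinAt (fun s : ℝ => t₀ + s) 1 (Ici 0) t := by
    simpa using (hasDerivWithinAt_id t (Ici (0:ℝ))).const_add t₀
  have h3 := HasDerivWithinAt.scomp t h1 h2 (fun s (hs : 0 ≤ s) => by
    show 0 ≤ t₀ + s
    linarith)
  simpa [Function.comp_def] using h3

theorem force_shift {F : ℕ → ℝ} {f : List (Fin M) → ℝ → ℝ} (hf : Force F f) {t₀ : ℝ}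
    (ht₀ : 0 ≤ t₀) : Force F (fun j t => f j (t₀ + t)) := by
  refine ⟨hf.1, fun j => ?_, fun j t ht => hf.2.2 j (t₀ + t) (by linarith)⟩
  exact (hf.2.1 j).comp (by fun_prop) (fun s (hs : 0 ≤ s) => by
    show 0 ≤ t₀ + s
    linarith)

theorem summable_of_energy {g : List (Fin M) → ℝ} {E : ℝ} (hg : ∀ j, 0 ≤ g j)
    (h : ∀ N : ℕ, ∑ n ∈ Finset.range (N + 1), gen n g ≤ E) : Summable g := by
  refine summable_of_sum_le (c := E) hg fun u => ?_
  obtain ⟨N, hN⟩ : ∃ N : ℕ, ∀ j ∈ u, j.length ≤ N :=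
    ⟨u.sup List.length, fun j hj => Finset.le_sup (f := List.length) hj⟩
  classical
  calc ∑ j ∈ u, g j ≤ ∑ j ∈ (Finset.range (N + 1)).biUnion (N247.TR.L (M := M)), g j := by
        apply Finset.sum_le_sum_of_subset_of_nonneg
        · intro j hj
          rw [Finset.mem_biUnion]
          exact ⟨j.length, Finset.mem_range.2 (by have := hN j hj; omega), (N247.TR.mem_L _ _).2 rfl⟩
        · intro j _ _; exact hg j
    _ = ∑ n ∈ Finset.range (N + 1), ∑ j ∈ N247.TR.L n, g j := by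
        apply Finset.sum_biUnion
        intro n _ m _ hnm
        rw [Function.onFun, Finset.disjoint_left]
        intro j hj hj'
        rw [N247.TR.mem_L] at hj hj'
        exact hnm (hj.symm.trans hj')
    _ = ∑ n ∈ Finset.range (N + 1), gen n g := by
        apply Finset.sum_congr rfl
        intro n _
        rw [N247.TR.gen_eq]
    _ ≤ E := h N

/-- The value of the enstrophy at some early time gives a start of the region. `hst` says that all
bounds `y` with `D^n y_n^2` summable fit. -/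
theorem smoothing_of_energy (hM : 0 < M) {B D ν : ℝ} (hB : 0 < B) (hD : 1 < D) (hν : 0 < ν)
    {F : ℕ → ℝ} {f : List (Fin M) → ℝ → ℝ} {x : List (Fin M) → ℝ} (hf : Force F f)
    (hx0 : ∀ j, 0 ≤ x j) (hxs : Summable fun j => x j ^ 2)
    (hst : ∀ y : ℕ → ℝ, (∀ n, 0 ≤ y n) → (Summable fun n => D ^ n * y n ^ 2) → Start M B D ν y F)
    {Z : List (Fin M) → ℝ → ℝ} (hZ : IsSol B D ν f x Z) : Smoothing Z := by
  intro τ hτ
  have hg := N247.TR.main M
  obtain ⟨hZ0, ⟨E, hE⟩, hens⟩ := N951.TR5.main N247.TR.main M B D ν F f x Z hB hD hν hf hx0 hxs hZ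
  obtain ⟨t₀, ht₀, ht₀τ, C, hC⟩ := hens (τ / 2) (by linarith)
  set y : ℕ → ℝ := fun n => Real.sqrt (gen n (fun j => Z j t₀ ^ 2)) with hy
  have hgen0 : ∀ n, 0 ≤ gen n (fun j : List (Fin M) => Z j t₀ ^ 2) := by
    intro n
    have h2 := hg.2.2.1 n (fun _ => 0) (fun j => Z j t₀ ^ 2) (fun j _ => sq_nonneg _)
    rw [hg.2.2.2.2.1] at h2
    simpa using h2
  have hysum : Summable fun n => D ^ n * y n ^ 2 := by
    have e : (fun n => D ^ n * y n ^ 2) = fun n => D ^ n * gen n (fun j => Z j t₀ ^ 2) := by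
      funext n
      rw [hy]
      simp only
      rw [Real.sq_sqrt (hgen0 n)]
    rw [e]
    refine summable_of_sum_range_le (c := C) (fun n => mul_nonneg (by positivity) (hgen0 n)) ?_
    intro n
    cases n with
    | zero =>
      simp only [Finset.range_zero, Finset.sum_empty]
      have := hC 0
      simp only [zero_add, Finset.range_one, Finset.sum_singleton, pow_zero, one_mul] at this
      exact le_trans (hgen0 0) this
    | succ n => exact hC n
  have hst' := hst y (fun n => Real.sqrt_nonneg _) hysum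
  have hZt : ∀ j, Z j t₀ ≤ y j.length := by
    intro j
    apply Real.le_sqrt_of_sq_le
    exact hg.2.2.2.1 j.length (fun j => Z j t₀ ^ 2) j (fun i => sq_nonneg _) rfl
  -- square summability of Z(t₀)
  have hZs : Summable fun j : List (Fin M) => Z j t₀ ^ 2 :=
    summable_of_energy (fun j => sq_nonneg _) fun N => hE N t₀ ht₀.le
  obtain ⟨S, hS, hSs, _⟩ := exist_of_start hM hB hD hν hst' (force_shift hf ht₀.le)
    (fun j => hZ0 j t₀ ht₀.le) hZs hZt
  have huniq := uniq hM hB hD hν (force_shift hf ht₀.le) (fun j => hZ0 j t₀ ht₀.le) hZs hS hSs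
    (shift hZ ht₀.le)
  obtain ⟨a, ha, hab⟩ := hSs (τ / 2) (by linarith)
  refine ⟨a, ha, fun j t ht => ?_⟩
  have h1 := huniq j (t - t₀) (by linarith)
  simp only [add_sub_cancel] at h1
  rw [h1]
  exact hab j (t - t₀) (by linarith)

end Pool.Agent.N167.TR
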