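import Pool.Agent.N167.TR.Reg
import Pool.Agent.N415.DY.Bar

namespace Pool.Agent.N167.TR

open Set

/-- Amplitudes `A n` of the invariant region on generation `n`, with the dimensionless parameters
of the system for `w_j = X_j / A |j|`. -/
structure Amp (M : ℕ) (B D ν K s₀ ε : ℝ) (A κ μ r : ℕ → ℝ) : Prop where
  A_pos : ∀ n, 0 < A n
  r_pos : ∀ n, 0 < r n
  μ_pos : ∀ n, 0 < μ n
  κ_nonneg : ∀ n, 0 ≤ κ n
  hr : ∀ n, r (n + 1) * A (n + 1) = B ^ n * A n ^ 2
  hκ : ∀ n, κ n * r n = M * B ^ n * A (n + 1)
  hμ : ∀ n, μ n * r n = ν * D ^ n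
  hR : ∀ n, s₀ * D * r n ≤ r (n + 1)
  hR4 : ∀ n, r (n + 1) ≤ D * r n
  hκK : ∀ n, κ n ≤ K
  hκ1 : ∀ n, K - ε / (16 * D) * μ n ≤ κ n
  hκ2 : ∀ n, K - ε / (16 * D) * μ n ≤ κ (n + 1)

variable {M : ℕ}

/-- value at the parent, zero for the root -/
def prev (w : List (Fin M) → ℝ) : List (Fin M) → ℝ
  | [] => 0
  | _ :: i => w i

/-- average over the children -/
noncomputable def avg (w : List (Fin M) → ℝ) (j : List (Fin M)) : ℝ := (∑ k : Fin M, w (k :: j)) / M

theorem avg_le {w : List (Fin M) → ℝ} {j : List (Fin M)} {c : ℝ} (hM : 0 < M)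
    (h : ∀ k, w (k :: j) ≤ c) : avg w j ≤ c := by
  have hM' : (0:ℝ) < M := by exact_mod_cast hM
  unfold avg
  rw [div_le_iff₀ hM']
  calc ∑ k : Fin M, w (k :: j) ≤ ∑ _k : Fin M, c := Finset.sum_le_sum fun k _ => h k
    _ = c * M := by simp [mul_comm]

theorem le_avg {w : List (Fin M) → ℝ} {j : List (Fin M)} {c : ℝ} (hM : 0 < M)
    (h : ∀ k, c ≤ w (k :: j)) : c ≤ avg w j := by
  have hM' : (0:ℝ) < M := by exact_mod_cast hM
  unfold avg
  rw [le_div_iff₀ hM']
  calc c * M = ∑ _k : Fin M, c := by simp [mul_comm]
    _ ≤ ∑ k : Fin M, w (k :: j) := Finset.sum_le_sum fun k _ => h k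

theorem rhs_eq {B D ν K s₀ ε : ℝ} {A κ μ r : ℕ → ℝ} (hM : 0 < M) (h : Amp M B D ν K s₀ ε A κ μ r)
    (f X : List (Fin M) → ℝ) (j : List (Fin M)) :
    rhs B D ν f X j / A j.length = f j / A j.length +
      r j.length * (prev (fun i => X i / A i.length) j ^ 2
      - κ j.length * (X j / A j.length) * avg (fun i => X i / A i.length) j
      - μ j.length * (X j / A j.length)) := by
  have hM' : (0:ℝ) < M := by exact_mod_cast hM
  set n := j.length with hn
  have hA := h.A_pos n
  have hA1 := h.A_pos (n + 1)
  have e1 : B ^ n = κ n * r n / (M * A (n + 1)) := by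
    have := h.hκ n
    rw [this]; field_simp
  have e2 : inflow B X j / A n = r n * prev (fun i => X i / A i.length) j ^ 2 := by
    cases j with
    | nil => simp [inflow, prev]
    | cons k i =>
      simp only [List.length_cons] at hn
      have hAm := h.A_pos i.length
      simp only [inflow, prev]
      have h1 := h.hr i.length
      rw [hn] at hA ⊢
      rw [div_eq_iff hA.ne']
      have : B ^ i.length = r (i.length + 1) * A (i.length + 1) / A i.length ^ 2 := by
        rw [h1]; field_simp
      rw [this]
      field_simp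
  have e3 : ν * D ^ n = μ n * r n := (h.hμ n).symm
  have e4 : avg (fun i => X i / A i.length) j = (∑ k : Fin M, X (k :: j)) / A (n + 1) / M := by
    unfold avg
    simp only [List.length_cons]
    rw [← Finset.sum_div]
  unfold rhs
  rw [← hn, sub_div, add_div, sub_div, e2, e3, e1, e4]
  field_simp
  ring

theorem μ_succ {B D ν K s₀ ε : ℝ} {A κ μ r : ℕ → ℝ} (h : Amp M B D ν K s₀ ε A κ μ r) (n : ℕ) :
    μ (n + 1) * r (n + 1) = D * (μ n * r n) := by
  rw [h.hμ, h.hμ, pow_succ]; ring

theorem μ_mono {B D ν K s₀ ε : ℝ} {A κ μ r : ℕ → ℝ} (h : Amp M B D ν K s₀ ε A κ μ r) (n : ℕ) :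
    μ n ≤ μ (n + 1) := by
  have h1 := μ_succ h n
  have h2 := h.hR4 n
  have h4 := h.r_pos (n + 1)
  have h5 := h.μ_pos n
  have h6 : μ n * r (n + 1) ≤ μ (n + 1) * r (n + 1) := by
    rw [h1]
    nlinarith
  exact le_of_mul_le_mul_right h6 h4

/-- Invariance of the region for the truncated system. -/
theorem region {B D ν K s₀ α b q c ε m₀ T : ℝ} {A κ μ r : ℕ → ℝ}
    {f X : List (Fin M) → ℝ → ℝ} {N : ℕ} (hM : 0 < M)
    (hReg : Reg D K s₀ α b q c ε) (h : Amp M B D ν K s₀ ε A κ μ r) (hT : 0 ≤ T)
    (hN : α ≤ c * μ N) (hm1 : m₀ ≤ 1 - q) (hm2 : α * m₀ ^ 2 ≤ b)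
    (hx : ∀ j, X j 0 ≤ m₀ * A j.length)
    (hf : ∀ j, ∀ t ∈ Icc (0 : ℝ) T,
      0 ≤ f j t ∧ f j t ≤ ε / (16 * D) * (ν * D ^ j.length) * A j.length)
    (hX0 : ∀ j, N < j.length → ∀ t, X j t = 0)
    (hpos : ∀ j, ∀ t ∈ Icc (0 : ℝ) T, 0 ≤ X j t)
    (hXd : SolUpTo B D ν f N T X) :
    ∀ j, ∀ t ∈ Icc (0 : ℝ) T, X j t ≤ A j.length := by
  have hα := hReg.hα
  have hb := hReg.hb
  have hq := hReg.hq
  have hq1 := hReg.hq1
  have hc := hReg.hc
  have hε := hReg.hε
  have hD := hReg.hD
  have hδε : ε / (16 * D) ≤ ε / 16 := by
    rw [div_le_div_iff₀ (by positivity) (by norm_num)]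
    nlinarith
  set w : List (Fin M) → ℝ → ℝ := fun j t => X j t / A j.length with hw
  set Dv : List (Fin M) → ℝ → ℝ := fun j t =>
    if j.length ≤ N then rhs B D ν (fun i => f i t) (fun i => X i t) j / A j.length else 0 with hDv
  have hwd : ∀ j, ∀ t ∈ Icc (0 : ℝ) T, HasDerivWithinAt (w j) (Dv j t) (Icc 0 T) t := by
    intro j t ht
    rcases le_or_gt j.length N with hn | hn
    · simp only [hDv, hn, if_true]
      exact (hXd j hn t ht).div_const (A j.length)
    · have hn' : ¬ j.length ≤ N := by omega
      simp only [hDv, hn', if_false]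
      have : w j = fun _ => 0 := by
        funext s
        simp only [hw, hX0 j hn s, zero_div]
      rw [this]
      exact hasDerivWithinAt_const _ _ _
  have hwnn : ∀ j, ∀ t ∈ Icc (0 : ℝ) T, 0 ≤ w j t := fun j t ht =>
    div_nonneg (hpos j t ht) (h.A_pos _).le
  have hwz : ∀ j : List (Fin M), N < j.length → ∀ t, w j t = 0 := by
    intro j hn t
    simp only [hw, hX0 j hn t, zero_div]
  have hpd : ∀ j, ∀ t ∈ Icc (0 : ℝ) T,
      HasDerivWithinAt (fun s => prev (fun i => w i s) j) (prev (fun i => Dv i t) j) (Icc 0 T) t := by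
    intro j t ht
    cases j with
    | nil => simp only [prev]; exact hasDerivWithinAt_const _ _ _
    | cons k i => simp only [prev]; exact hwd i t ht
  have hpnn : ∀ j, ∀ t ∈ Icc (0 : ℝ) T, 0 ≤ prev (fun i => w i t) j := by
    intro j t ht
    cases j with
    | nil => simp only [prev]; exact le_rfl
    | cons k i => simp only [prev]; exact hwnn i t ht
  haveI : Finite {j : List (Fin M) // j.length ≤ N} :=
    (List.finite_length_le (Fin M) N).to_subtype
  let φ : {j : List (Fin M) // j.length ≤ N} × Option (Option (Fin M)) → ℝ → ℝ := fun i t =>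
    match i.2 with
    | none => 1 - w i.1 t
    | some none => 1 - q * (1 - prev (fun m => w m t) i.1) - w i.1 t
    | some (some k) => w (k :: i.1) t - α * (w i.1 t) ^ 2 + (b + c * μ i.1.1.length)
  let φ' : {j : List (Fin M) // j.length ≤ N} × Option (Option (Fin M)) → ℝ → ℝ := fun i t =>
    match i.2 with
    | none => - Dv i.1 t
    | some none => q * prev (fun m => Dv m t) i.1 - Dv i.1 t
    | some (some k) => Dv (k :: i.1) t - 2 * α * w i.1 t * Dv i.1 t
  have hφd : ∀ i, ∀ t ∈ Icc (0 : ℝ) T, HasDerivWithinAt (φ i) (φ' i t) (Icc 0 T) t := by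
    rintro ⟨⟨j, hj⟩, o⟩ t ht
    rcases o with _ | _ | k
    · simpa [φ, φ'] using (hwd j t ht).const_sub 1
    · have h1 := ((((hpd j t ht).const_sub 1).const_mul q).const_sub 1).sub (hwd j t ht)
      refine h1.congr_deriv ?_
      simp only [φ']
      ring
    · have h1 := ((hwd (k :: j) t ht).sub (((hwd j t ht).pow 2).const_mul α)).add_const
        (b + c * μ j.length)
      refine h1.congr_deriv ?_
      simp only [φ']
      push_cast
      ring
  have h00 : (0:ℝ) ∈ Icc (0:ℝ) T := ⟨le_rfl, hT⟩
  have hm0 : 0 ≤ m₀ := by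
    have h1 := hx []
    have h2 := hpos [] 0 h00
    have h3 := h.A_pos ([] : List (Fin M)).length
    by_contra hneg
    push Not at hneg
    nlinarith
  have hφ0 : ∀ i, 0 ≤ φ i 0 := by
    rintro ⟨⟨j, hj⟩, o⟩
    have hwn : w j 0 ≤ m₀ := by
      simp only [hw]
      rw [div_le_iff₀ (h.A_pos _)]
      exact hx j
    have hwn0 := hwnn j 0 h00
    have hp := hpnn j 0 h00
    have hμn := h.μ_pos j.length
    rcases o with _ | _ | k
    · simp only [φ]
      linarith
    · simp only [φ]
      have h1 : 0 ≤ q * prev (fun m => w m 0) j := mul_nonneg hq hp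
      linarith
    · simp only [φ]
      have hwn1 := hwnn (k :: j) 0 h00
      have h1 : w j 0 ^ 2 ≤ m₀ ^ 2 := pow_le_pow_left₀ hwn0 hwn 2
      have h2 : α * w j 0 ^ 2 ≤ α * m₀ ^ 2 := mul_le_mul_of_nonneg_left h1 hα.le
      have h3 : 0 ≤ c * μ j.length := by positivity
      linarith
  have hbar := N415.DY.t_barrier _ T φ φ' hT hφd hφ0 (by
    rintro ⟨⟨j, hj⟩, o⟩ t ht hall hzero
    have htI : t ∈ Icc (0:ℝ) T := ⟨ht.1, ht.2.le⟩
    have hw0 : ∀ i, 0 ≤ w i t := fun i => hwnn i t htI
    have hp0 : ∀ i, 0 ≤ prev (fun m => w m t) i := fun i => hpnn i t htI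
    have hw1 : ∀ i, w i t ≤ 1 := by
      intro i
      rcases le_or_gt i.length N with hm | hm
      · have := hall (⟨i, hm⟩, none)
        simp only [φ] at this
        linarith
      · rw [hwz i hm t]; norm_num
    have hp1 : ∀ i, prev (fun m => w m t) i ≤ 1 := by
      intro i
      cases i with
      | nil => simp only [prev]; norm_num
      | cons k i => simp only [prev]; exact hw1 i
    have hLo : ∀ i, i.length ≤ N → ∀ k, α * w i t ^ 2 - b - c * μ i.length ≤ w (k :: i) t := by
      intro i hm k
      have := hall (⟨i, hm⟩, some (some k))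
      simp only [φ] at this
      linarith
    have hUp : ∀ i, i.length ≤ N → w i t ≤ 1 - q * (1 - prev (fun m => w m t) i) := by
      intro i hm
      have := hall (⟨i, hm⟩, some none)
      simp only [φ] at this
      linarith
    have hDm : ∀ i, i.length ≤ N → Dv i t = f i t / A i.length +
        r i.length * (prev (fun m => w m t) i ^ 2
        - κ i.length * w i t * avg (fun m => w m t) i - μ i.length * w i t) := by
      intro i hm
      simp only [hDv, hm, if_true]
      exact rhs_eq hM h (fun m => f m t) (fun m => X m t) i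
    have hF0 : ∀ i, 0 ≤ f i t / A i.length := fun i =>
      div_nonneg (hf i t htI).1 (h.A_pos _).le
    have hFδ : ∀ i : List (Fin M), f i t / A i.length ≤ ε / (16 * D) * μ i.length * r i.length := by
      intro i
      rw [div_le_iff₀ (h.A_pos _)]
      have := (hf i t htI).2
      rw [← h.hμ i.length] at this
      linarith
    have hF1 : ∀ i : List (Fin M), f i t / A i.length ≤ ε / 16 * μ i.length * r i.length := by
      intro i
      have h1 := hFδ i
      have h2 : 0 ≤ μ i.length * r i.length := by
        have := h.μ_pos i.length; have := h.r_pos i.length; positivity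
      have h3 := mul_le_mul_of_nonneg_right hδε h2
      linarith
    have hκ1' : ∀ n, K - ε / 16 * μ n ≤ κ n := by
      intro n
      have h1 := h.hκ1 n
      have h2 := mul_le_mul_of_nonneg_right hδε (h.μ_pos n).le
      linarith
    have hv2 : ∀ i, i.length ≤ N → α * prev (fun m => w m t) i ^ 2 ≤ w i t + b + c * μ i.length := by
      intro i hm
      cases i with
      | nil =>
        simp only [prev]
        have h1 := hw0 []
        have h2 := mul_pos hc (h.μ_pos 0)
        simp only [List.length_nil]
        nlinarith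
      | cons k i =>
        simp only [prev, List.length_cons]
        simp only [List.length_cons] at hm
        have h1 := hLo i (by omega) k
        have h2 := mul_le_mul_of_nonneg_left (μ_mono h i.length) hc.le
        linarith
    rcases o with _ | _ | k
    · -- w j = 1
      simp only [φ] at hzero
      simp only [φ']
      have hy : w j t = 1 := by linarith
      have hav : α - b - c * μ j.length ≤ avg (fun m => w m t) j := by
        apply le_avg hM
        intro k
        have hL := hLo j hj k
        rw [hy] at hL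
        linarith
      have hav0 : 0 ≤ avg (fun m => w m t) j := le_avg hM fun k => hw0 _
      have hav1 : avg (fun m => w m t) j ≤ 1 := avg_le hM fun k => hw1 _
      have key := alg_T hReg (F := f j t / A j.length) (v := prev (fun m => w m t) j)
        (ω := avg (fun m => w m t) j) (h.μ_pos _) (h.r_pos _) (hκ1' _) hav0 hav1
        hav (hp0 j) (hp1 j) (hF1 j)
      rw [hDm j hj, hy]
      linarith
    · -- upper constraint
      simp only [φ] at hzero
      simp only [φ']
      cases j with
      | nil =>
        simp only [prev] at hzero ⊢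
        have hy : w [] t = 1 - q := by linarith
        have hav0 : 0 ≤ avg (fun m => w m t) [] := le_avg hM fun k => hw0 _
        have key := alg_U0 hReg (F := f [] t / A 0) (ω := avg (fun m => w m t) []) (h.μ_pos 0)
          (h.r_pos 0) (h.κ_nonneg 0) hav0 (hF1 [])
        rw [hDm [] hj, hy]
        simp only [prev, List.length_nil]
        linarith
      | cons k i =>
        simp only [List.length_cons] at hj
        simp only [prev] at hzero ⊢
        rcases hq.eq_or_lt with hq0 | hq0
        · -- q = 0: w = 1
          have hy : w (k :: i) t = 1 := by rw [← hq0] at hzero; linarith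
          have hav : α - b - c * μ (k :: i).length ≤ avg (fun m => w m t) (k :: i) := by
            apply le_avg hM
            intro k'
            have hL := hLo (k :: i) (by simpa using hj) k'
            rw [hy] at hL
            linarith
          have hav0 : 0 ≤ avg (fun m => w m t) (k :: i) := le_avg hM fun k => hw0 _
          have hav1 : avg (fun m => w m t) (k :: i) ≤ 1 := avg_le hM fun k => hw1 _
          have key := alg_T hReg (F := f (k :: i) t / A (k :: i).length)
            (v := prev (fun m => w m t) (k :: i))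
            (ω := avg (fun m => w m t) (k :: i)) (h.μ_pos _) (h.r_pos _) (hκ1' _) hav0 hav1
            hav (hp0 _) (hp1 _) (hF1 _)
          rw [hDm (k :: i) (by simpa using hj), hy, ← hq0]
          linarith
        · have hz : w (k :: i) t = 1 - q * (1 - w i t) := by linarith
          have hzz : avg (fun m => w m t) i ≤ w (k :: i) t := by
            rw [hz]
            apply avg_le hM
            intro k'
            have := hUp (k' :: i) (by simpa using hj)
            simpa only [prev] using this
          have hω0 : 0 ≤ avg (fun m => w m t) (k :: i) := le_avg hM fun k => hw0 _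
          have hω1 : avg (fun m => w m t) (k :: i) ≤ 1 := avg_le hM fun k => hw1 _
          have hωL : α * w (k :: i) t ^ 2 - b - c * μ (i.length + 1) ≤
              avg (fun m => w m t) (k :: i) := by
            apply le_avg hM
            intro k'
            have := hLo (k :: i) (by simpa using hj) k'
            simpa using this
          have key := alg_U hReg hq0 (F := f i t / A i.length)
            (F₁ := f (k :: i) t / A (i.length + 1))
            (v := prev (fun m => w m t) i) (y := w i t) (z := w (k :: i) t)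
            (z' := avg (fun m => w m t) i) (ω := avg (fun m => w m t) (k :: i))
            (h.μ_pos i.length) (h.r_pos i.length) (h.hR i.length) (h.hR4 i.length)
            (μ_succ h i.length) (h.κ_nonneg _) (h.hκK i.length) (h.hκ2 i.length)
            (hw0 _) (hw1 _) hz hzz hω0 hω1 hωL
            (hp0 i) (hp1 i) (hUp i (by omega)) (hF0 i) (hFδ (k :: i))
          rw [hDm i (by omega), hDm (k :: i) (by simpa using hj)]
          simp only [prev, List.length_cons]
          exact key
    · -- lower constraint
      simp only [φ] at hzero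
      simp only [φ']
      rcases Nat.lt_or_ge j.length N with hnN | hnN
      · have hz : w (k :: j) t = α * w j t ^ 2 - b - c * μ j.length := by linarith
        have hzz : w (k :: j) t ≤ avg (fun m => w m t) j := by
          rw [hz]
          exact le_avg hM fun k' => hLo j hj k'
        have hω0 : 0 ≤ avg (fun m => w m t) (k :: j) := le_avg hM fun k => hw0 _
        have hω1 : avg (fun m => w m t) (k :: j) ≤ 1 - q * (1 - w (k :: j) t) := by
          apply avg_le hM
          intro k'
          rcases le_or_gt (k' :: k :: j).length N with h2 | h2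
          · have := hUp (k' :: k :: j) h2
            simpa only [prev] using this
          · rw [hwz _ h2 t]
            nlinarith [hw0 (k :: j), hw1 (k :: j)]
        have key := alg_L hReg (F := f j t / A j.length) (F₁ := f (k :: j) t / A (j.length + 1))
          (v := prev (fun m => w m t) j) (y := w j t) (z := w (k :: j) t)
          (z' := avg (fun m => w m t) j) (ω := avg (fun m => w m t) (k :: j))
          (h.μ_pos _) (h.r_pos _) (h.hR _) (h.hR4 _) (μ_succ h _) (h.κ_nonneg _) (hκ1' _)
          (h.hκK (j.length + 1))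
          (hw0 _) (hw1 _) hz (hw0 _) (hw1 _) hzz hω0 hω1 (hp0 j) (hp1 j) (hv2 j hj)
          (hF1 j) (hF0 (k :: j))
        rw [hDm j hj, hDm (k :: j) (by simpa using hnN)]
        simp only [prev, List.length_cons]
        exact key
      · exfalso
        have hnN' : j.length = N := by omega
        have h1 := hwz (k :: j) (by simp only [List.length_cons]; omega) t
        rw [h1] at hzero
        have h2 : w j t ^ 2 ≤ 1 := by nlinarith [hw0 j, hw1 j]
        have h3 : α * w j t ^ 2 ≤ α * 1 := mul_le_mul_of_nonneg_left h2 hα.le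
        rw [hnN'] at hzero
        linarith)
  intro j t ht
  rcases le_or_gt j.length N with hn | hn
  · have := hbar (⟨j, hn⟩, none) t ht
    simp only [φ] at this
    have h1 : w j t ≤ 1 := by linarith
    simp only [hw] at h1
    rwa [div_le_one (h.A_pos _)] at h1
  · rw [hX0 j hn t]
    exact (h.A_pos _).le

end Pool.Agent.N167.TR
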