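import Pool.Agent.N167.TR.Main

namespace Pool.Agent.N167.TR

open Set Filter

variable {M : ℕ}

/-- all strictly subcritical starts for `D ≥ 4` -/
theorem start_box {B D ν : ℝ} (hM : 0 < M) (hB : 0 < B) (hν : 0 < ν) (hD : 4 ≤ D)
    (hc : B ^ 2 < M * D ^ 3) {y F : ℕ → ℝ} (hF : Rapid F)
    (hy : ∀ s : ℝ, 0 < s → s < 1 → B ^ 2 ≤ M * D ^ 3 * s ^ 3 →
      ∃ C, 0 ≤ C ∧ ∀ n, y n ≤ C * (D / B * s) ^ n) :
    Start M B D ν y F := by
  have hM' : (0:ℝ) < M := by exact_mod_cast hM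
  have hDp : 0 < D := by linarith
  set κ : ℝ := M * D ^ 3 / B ^ 2 with hκ
  have hκ1 : 1 < κ := by rw [hκ, lt_div_iff₀ (by positivity)]; linarith
  have hκ0 : 0 < κ := by linarith
  obtain ⟨K, s₀, α, b, q, c, ε, hReg, hKκ, hκs⟩ := reg_exists D κ hD hκ1
  have hK := hReg.hK
  have hKpos : 0 < K := by linarith
  set s : ℝ := (K / κ) ^ ((1:ℝ) / 3) with hs
  have hspos : 0 < s := Real.rpow_pos_of_pos (by positivity) _
  have hs3 : s ^ 3 = K / κ := by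
    rw [hs, ← Real.rpow_natCast, ← Real.rpow_mul (by positivity)]
    norm_num
  have hs1 : s < 1 := by
    apply Real.rpow_lt_one (by positivity) _ (by norm_num)
    rw [div_lt_one hκ0]; exact hKκ
  have hs₀s : s₀ ≤ s := by
    have h1 : s₀ ^ 3 ≤ s ^ 3 := by
      rw [hs3, le_div_iff₀ hκ0]
      linarith
    exact le_of_pow_le_pow_left₀ (by norm_num) hspos.le h1
  have hKs : K * B ^ 2 = M * D ^ 3 * s ^ 3 := by
    rw [hs3, hκ]
    field_simp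
  refine start_sub hM hB hν hReg hs₀s hs1 hKs (hy s hspos hs1 ?_) hF
  rw [← hKs]
  nlinarith [sq_nonneg B]

/-- starts in the simple region; `s^4 = ϑ`. -/
theorem start_simple {B D ν ϑ : ℝ} (hM : 0 < M) (hB : 0 < B) (hν : 0 < ν) (hD : 1 ≤ D)
    (h9 : (9/10 : ℝ) ^ 4 ≤ ϑ) (hϑ1 : ϑ < 1) (h10 : 10 * B ^ 2 ≤ M * D ^ 4 * ϑ)
    (h2 : 2 * B ^ 2 ≤ M * D ^ 3 * ϑ) {y F : ℕ → ℝ} (hF : Rapid F)
    (hy : ∀ s : ℝ, 0 < s → s < 1 → s ^ 4 = ϑ → ∃ C, 0 ≤ C ∧ ∀ n, y n ≤ C * (D / B * s) ^ n) :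
    Start M B D ν y F := by
  have hM' : (0:ℝ) < M := by exact_mod_cast hM
  have hDp : 0 < D := by linarith
  have hϑ0 : 0 < ϑ := lt_of_lt_of_le (by norm_num) h9
  set s : ℝ := ϑ ^ ((1:ℝ) / 4) with hs
  have hspos : 0 < s := Real.rpow_pos_of_pos hϑ0 _
  have hs4 : s ^ 4 = ϑ := by
    rw [hs, ← Real.rpow_natCast, ← Real.rpow_mul hϑ0.le]
    norm_num
  have hs1 : s < 1 := Real.rpow_lt_one hϑ0.le hϑ1 (by norm_num)
  have hs9 : 9 / 10 ≤ s := by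
    have h1 : (9/10 : ℝ) ^ 4 ≤ s ^ 4 := by rw [hs4]; exact h9
    exact le_of_pow_le_pow_left₀ (by norm_num) hspos.le h1
  set K : ℝ := M * D ^ 3 * s ^ 3 / B ^ 2 with hK
  have hs34 : s ^ 4 ≤ s ^ 3 := by
    have : s ^ 4 = s ^ 3 * s := by ring
    rw [this]
    have h3 : 0 < s ^ 3 := by positivity
    nlinarith
  have hK2 : 2 ≤ K := by
    rw [hK, le_div_iff₀ (by positivity)]
    calc 2 * B ^ 2 ≤ M * D ^ 3 * ϑ := h2
      _ = M * D ^ 3 * s ^ 4 := by rw [hs4]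
      _ ≤ M * D ^ 3 * s ^ 3 := mul_le_mul_of_nonneg_left hs34 (by positivity)
  have hP : 10 ≤ K * (s * D) := by
    have : K * (s * D) = M * D ^ 4 * s ^ 4 / B ^ 2 := by rw [hK]; ring
    rw [this, hs4, le_div_iff₀ (by positivity)]
    exact h10
  have hReg := simple hD hK2 hs9 hP
  refine start_sub hM hB hν hReg le_rfl hs1 ?_ (hy s hspos hs1 hs4) hF
  rw [hK]
  field_simp

theorem start_smooth {B D ν : ℝ} (hM : 0 < M) (hB : 0 < B) (hν : 0 < ν) (hD : 1 < D)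
    (hc : (4 ≤ D ∧ B ^ 2 ≤ M * D ^ 3) ∨ (D ≤ 4 ∧ 10 * B ^ 2 < M * D ^ 4))
    {y F : ℕ → ℝ} (hy : Rapid y) (hF : Rapid F) : Start M B D ν y F := by
  have hM' : (0:ℝ) < M := by exact_mod_cast hM
  have hDp : 0 < D := by linarith
  rcases hc with ⟨hD4, hc⟩ | ⟨hD4, hc⟩
  · rcases hc.eq_or_lt with h | h
    · exact start_crit hB hν hD4 h.symm (small_of_rapid hy (by positivity)) hF
    · exact start_box hM hB hν hD4 h hF fun s hs _ _ => rapid_bound hy (by positivity)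
  · have h1 : 10 * B ^ 2 / (M * D ^ 4) < 1 := by rw [div_lt_one (by positivity)]; exact hc
    refine start_simple (ϑ := max ((9/10 : ℝ) ^ 4) (10 * B ^ 2 / (M * D ^ 4))) hM hB hν hD.le
      (le_max_left _ _) (max_lt (by norm_num) h1) ?_ ?_ hF
      fun s hs _ _ => rapid_bound hy (by positivity)
    · have h2 := le_max_right ((9/10 : ℝ) ^ 4) (10 * B ^ 2 / (M * D ^ 4))
      have h3 := mul_le_mul_of_nonneg_left h2 (by positivity : (0:ℝ) ≤ M * D ^ 4)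
      have h4 : M * D ^ 4 * (10 * B ^ 2 / (M * D ^ 4)) = 10 * B ^ 2 := by field_simp
      linarith
    · have h2 := le_max_right ((9/10 : ℝ) ^ 4) (10 * B ^ 2 / (M * D ^ 4))
      have h3 := mul_le_mul_of_nonneg_left h2 (by positivity : (0:ℝ) ≤ M * D ^ 3)
      have h4 : M * D ^ 3 * (10 * B ^ 2 / (M * D ^ 4)) = 10 * B ^ 2 / D := by field_simp
      have h5 : 2 * B ^ 2 ≤ 10 * B ^ 2 / D := by
        rw [le_div_iff₀ hDp]
        nlinarith [sq_nonneg B]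
      linarith

theorem y_small {D : ℝ} (hD : 1 < D) {y : ℕ → ℝ}
    (hs : Summable fun n => D ^ n * y n ^ 2) {σ : ℝ} (hσ : 0 < σ) (hσD : 1 ≤ D * σ ^ 2) :
    ∀ η : ℝ, 0 < η → ∃ N : ℕ, ∀ n, N ≤ n → y n ≤ η * σ ^ n := by
  intro η hη
  have h1 := hs.tendsto_atTop_zero
  obtain ⟨N, hN⟩ := eventually_atTop.1 (h1.eventually_le_const (show 0 < η ^ 2 by positivity))
  refine ⟨N, fun n hn => ?_⟩
  have h2 := hN n hn
  have h3 : 1 ≤ D ^ n * (σ ^ n) ^ 2 := by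
    have : D ^ n * (σ ^ n) ^ 2 = (D * σ ^ 2) ^ n := by rw [mul_pow, pow_right_comm σ 2 n]
    rw [this]
    exact one_le_pow₀ hσD
  have hDn : 0 < D ^ n := by positivity
  have hσn : 0 < σ ^ n := by positivity
  apply le_of_sq_le_sq _ (by positivity)
  -- y^2 ≤ η^2 / D^n ≤ η^2 σ^{2n}
  have h4 : D ^ n * y n ^ 2 ≤ D ^ n * (η * σ ^ n) ^ 2 := by
    calc D ^ n * y n ^ 2 ≤ η ^ 2 * 1 := by linarith
      _ ≤ η ^ 2 * (D ^ n * (σ ^ n) ^ 2) := mul_le_mul_of_nonneg_left h3 (by positivity)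
      _ = _ := by ring
  exact le_of_mul_le_mul_left h4 hDn

theorem start_energy {B D ν : ℝ} (hM : 0 < M) (hB : 0 < B) (hν : 0 < ν) (hD : 1 < D)
    (hc : (M = 1 ∧ 4 ≤ D ∧ B ^ 2 ≤ D ^ 3) ∨
      (2 ≤ M ∧ B ^ 2 < D ^ 3 ∧ 10 * B ^ 2 < M * D ^ 4))
    {F : ℕ → ℝ} (hF : Rapid F) (y : ℕ → ℝ) (_hy : ∀ n, 0 ≤ y n)
    (hs : Summable fun n => D ^ n * y n ^ 2) : Start M B D ν y F := by
  have hM' : (0:ℝ) < M := by exact_mod_cast hM
  have hDp : 0 < D := by linarith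
  rcases hc with ⟨rfl, hD4, hc⟩ | ⟨hM2, hc1, hc2⟩
  · rcases hc.eq_or_lt with h | h
    · refine start_crit hB hν hD4 (by push_cast; linarith) (y_small hD hs (by positivity) ?_) hF
      rw [div_pow, h]
      apply le_of_eq
      field_simp
    · refine start_box hM hB hν hD4 (by push_cast; linarith) hF fun s hs0 hs1 hsB => ?_
      apply bdd_of_small (by positivity)
      refine y_small hD hs (by positivity) ?_
      have h1 : D * (D / B * s) ^ 2 = D ^ 3 * s ^ 2 / B ^ 2 := by field_simp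
      rw [h1, le_div_iff₀ (by positivity)]
      push_cast at hsB
      have h2 : s ^ 3 ≤ s ^ 2 := by
        have : s ^ 3 = s ^ 2 * s := by ring
        rw [this]
        nlinarith [sq_nonneg s]
      have h3 := mul_le_mul_of_nonneg_left h2 (by positivity : (0:ℝ) ≤ D ^ 3)
      linarith
  · have hM2' : (2:ℝ) ≤ M := by exact_mod_cast hM2
    have h1 : 10 * B ^ 2 / (M * D ^ 4) < 1 := by rw [div_lt_one (by positivity)]; exact hc2
    have h2 : B ^ 2 / D ^ 3 < 1 := by rw [div_lt_one (by positivity)]; exact hc1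
    set ϑ : ℝ := max ((9/10 : ℝ) ^ 4) (max (10 * B ^ 2 / (M * D ^ 4)) (B ^ 2 / D ^ 3)) with hϑ
    have hϑ1 : ϑ < 1 := max_lt (by norm_num) (max_lt h1 h2)
    have hϑa : 10 * B ^ 2 / (M * D ^ 4) ≤ ϑ := le_trans (le_max_left _ _) (le_max_right _ _)
    have hϑb : B ^ 2 / D ^ 3 ≤ ϑ := le_trans (le_max_right _ _) (le_max_right _ _)
    rw [div_le_iff₀ (by positivity)] at hϑa hϑb
    refine start_simple (ϑ := ϑ) hM hB hν hD.le (le_max_left _ _) hϑ1 (by linarith) ?_ hF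
      fun s hs0 hs1 hs4 => ?_
    · have h3 : 0 ≤ ϑ * D ^ 3 := by
        have : 0 ≤ ϑ := le_trans (by norm_num) (le_max_left _ _)
        positivity
      nlinarith
    · apply bdd_of_small (by positivity)
      refine y_small hD hs (by positivity) ?_
      have h3 : D * (D / B * s) ^ 2 = D ^ 3 * s ^ 2 / B ^ 2 := by field_simp
      rw [h3, le_div_iff₀ (by positivity)]
      have h4 : s ^ 4 ≤ s ^ 2 := by
        have : s ^ 4 = s ^ 2 * s ^ 2 := by ring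
        rw [this]
        have h5 : s ^ 2 ≤ 1 := by nlinarith
        nlinarith [sq_nonneg s]
      rw [← hs4] at hϑb
      have h6 := mul_le_mul_of_nonneg_left h4 (by positivity : (0:ℝ) ≤ D ^ 3)
      linarith

theorem summable_of_rapid (hM : 0 < M) {x : List (Fin M) → ℝ} (hx0 : ∀ j, 0 ≤ x j) {y : ℕ → ℝ}
    (hy : Rapid y) (hxy : ∀ j, x j ≤ y j.length) : Summable fun j => x j ^ 2 := by
  have hF : Force y (fun (j : List (Fin M)) (_ : ℝ) => x j) :=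
    ⟨hy, fun j => continuousOn_const, fun j t _ => ⟨hx0 j, hxy j⟩⟩
  obtain ⟨G, _, hG⟩ := force_sum hM hF
  exact summable_of_energy (fun j => sq_nonneg _) fun N => hG N 0 le_rfl

/-- Smooth data. -/
theorem smooth_case {B D ν : ℝ} (hM : 0 < M) (hB : 0 < B) (hν : 0 < ν) (hD : 1 < D)
    (hc : (4 ≤ D ∧ B ^ 2 ≤ M * D ^ 3) ∨ (D ≤ 4 ∧ 10 * B ^ 2 < M * D ^ 4))
    {F y : ℕ → ℝ} {f : List (Fin M) → ℝ → ℝ} {x : List (Fin M) → ℝ} (hf : Force F f)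
    (hx0 : ∀ j, 0 ≤ x j) (hy : Rapid y) (hxy : ∀ j, x j ≤ y j.length) :
    ∃ X : List (Fin M) → ℝ → ℝ, IsSol B D ν f x X ∧ (∀ j, ∀ t, 0 ≤ t → 0 ≤ X j t) ∧
      (∃ a : ℕ → ℝ, Rapid a ∧ ∀ j, ∀ t, 0 ≤ t → X j t ≤ a j.length) ∧
      ∀ Z : List (Fin M) → ℝ → ℝ, IsSol B D ν f x Z → ∀ j, ∀ t, 0 ≤ t → Z j t = X j t := by
  have hxs := summable_of_rapid hM hx0 hy hxy
  obtain ⟨X, hX, hXs, hXr⟩ := exist_of_start hM hB hD hν (start_smooth hM hB hν hD hc hy hf.1) hf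
    hx0 hxs hxy
  obtain ⟨hX0, _, _⟩ := N951.TR5.main N247.TR.main M B D ν F f x X hB hD hν hf hx0 hxs hX
  exact ⟨X, hX, hX0, hXr hy, fun Z hZ => uniq hM hB hD hν hf hx0 hxs hX hXs hZ⟩

/-- Data of finite energy. -/
theorem energy_case {B D ν : ℝ} (hM : 0 < M) (hB : 0 < B) (hν : 0 < ν) (hD : 1 < D)
    (hc : (M = 1 ∧ 4 ≤ D ∧ B ^ 2 ≤ D ^ 3) ∨
      (2 ≤ M ∧ B ^ 2 < D ^ 3 ∧ 10 * B ^ 2 < M * D ^ 4))
    {F : ℕ → ℝ} {f : List (Fin M) → ℝ → ℝ} {x : List (Fin M) → ℝ} (hf : Force F f)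
    (hx0 : ∀ j, 0 ≤ x j) (hxs : Summable fun j => x j ^ 2) :
    ∃ X : List (Fin M) → ℝ → ℝ, IsSol B D ν f x X ∧ (∀ j, ∀ t, 0 ≤ t → 0 ≤ X j t) ∧
      Smoothing X ∧
      ∀ Z : List (Fin M) → ℝ → ℝ, IsSol B D ν f x Z → ∀ j, ∀ t, 0 ≤ t → Z j t = X j t := by
  obtain ⟨X, hX⟩ := exist_energy hM hB hD hν hf hx0 hxs
  have hXs := smoothing_of_energy hM hB hD hν hf hx0 hxs
    (start_energy hM hB hν hD hc hf.1) hX
  obtain ⟨hX0, _, _⟩ := N951.TR5.main N247.TR.main M B D ν F f x X hB hD hν hf hx0 hxs hX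
  exact ⟨X, hX, hX0, hXs, fun Z hZ => uniq hM hB hD hν hf hx0 hxs hX hXs hZ⟩

end Pool.Agent.N167.TR
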