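import Mathlib

/-!
# The dyadic model of the Navier–Stokes equations on a tree

The nodes of the `M`-ary tree are the lists `j : List (Fin M)`; the children of `j` are the nodes
`k :: j`, `k : Fin M`, the generation of `j` is `j.length`. The system is
`X_j' = f_j - ν D^|j| X_j + B^|i| X_i^2 - B^|j| X_j ∑_k X_{k::j}` (`i` the parent of `j`; the second
last term is absent for the root). `M = 1` is the Desnyansky–Novikov (Katz–Pavlović) shell model.
-/

namespace Pool.Agent.N167.TR

open Set

variable {M : ℕ}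

/-- The flux `B^|i| X_i^2` which the node `j` receives from its parent `i` (zero for the root). -/
noncomputable def inflow (B : ℝ) (X : List (Fin M) → ℝ) : List (Fin M) → ℝ
  | [] => 0
  | _ :: i => B ^ i.length * X i ^ 2

/-- The right-hand side of the dyadic Navier–Stokes system at the node `j`:
`f_j - ν D^|j| X_j + B^|i| X_i^2 - B^|j| X_j ∑_k X_{k::j}`, `i` the parent of `j`. -/
noncomputable def rhs (B D ν : ℝ) (f X : List (Fin M) → ℝ) (j : List (Fin M)) : ℝ :=
  f j - ν * D ^ j.length * X j + inflow B X j - B ^ j.length * X j * ∑ k : Fin M, X (k :: j)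

/-- `X` is a solution on `[0, ∞)` (component by component) of the dyadic Navier–Stokes system with
force `f` and initial datum `x`. -/
def IsSol (B D ν : ℝ) (f : List (Fin M) → ℝ → ℝ) (x : List (Fin M) → ℝ)
    (X : List (Fin M) → ℝ → ℝ) : Prop :=
  (∀ j, X j 0 = x j) ∧
  ∀ j, ∀ t, 0 ≤ t →
    HasDerivWithinAt (X j) (rhs B D ν (fun i => f i t) (fun i => X i t) j) (Ici 0) t

/-- Rapidly decreasing sequence: `sup_n s^n a_n < ∞` for every real `s > 0`. -/
def Rapid (a : ℕ → ℝ) : Prop := ∀ s : ℝ, 0 < s → ∃ C : ℝ, ∀ n : ℕ, s ^ n * a n ≤ C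

/-- The forces considered: continuous in time, nonnegative, bounded by a rapidly decreasing
function `F` of the generation. -/
def Force (F : ℕ → ℝ) (f : List (Fin M) → ℝ → ℝ) : Prop :=
  Rapid F ∧ (∀ j, ContinuousOn (f j) (Ici 0)) ∧ ∀ j, ∀ t, 0 ≤ t → 0 ≤ f j t ∧ f j t ≤ F j.length

/-- `X` solves on `[0, T]` the equations of the nodes of generation `≤ N`. -/
def SolUpTo (B D ν : ℝ) (f : List (Fin M) → ℝ → ℝ) (N : ℕ) (T : ℝ)
    (X : List (Fin M) → ℝ → ℝ) : Prop :=
  ∀ j : List (Fin M), j.length ≤ N → ∀ t ∈ Icc (0 : ℝ) T,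
    HasDerivWithinAt (X j) (rhs B D ν (fun i => f i t) (fun i => X i t) j) (Icc 0 T) t

/-- The sum of `g` over the nodes of generation `n`. -/
def gen : ℕ → (List (Fin M) → ℝ) → ℝ
  | 0, g => g []
  | n + 1, g => gen n (fun j => ∑ k : Fin M, g (k :: j))

/-- Truncation to the interval `[0, A]`. -/
noncomputable def clamp (A x : ℝ) : ℝ := max 0 (min x A)

end Pool.Agent.N167.TR
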