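import Pool.Agent.N167.TR.Reg
import Pool.Agent.N167.DY.Reg

namespace Pool.Agent.N167.TR

/-- A region for `D = 4` is a region for every `D ≥ 4` under two additional inequalities. -/
theorem lift {D K R₀ α b q c ε : ℝ} (hD : 4 ≤ D) (h : DY.Reg K R₀ α b q c ε)
    (hα : 0 < α)
    (P0 : ∀ z μ y : ℝ, 0 ≤ z → 0 < μ → 0 ≤ y → y ≤ 1 → α * y ^ 2 = z + b + c * μ →
      0 ≤ y ^ 2 - K * z * (1 - q * (1 - z)))
    (P3 : ∀ z μ y : ℝ, 0 ≤ z → 0 < μ → 0 ≤ y → y ≤ 1 → α * y ^ 2 = z + b + c * μ →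
      0 ≤ R₀ / 4 * (y ^ 2 - K * z * (1 - q * (1 - z))) - μ * z)
    (UI : ∀ x : ℝ, 0 ≤ x → x ≤ 1 →
      (1 - x) ^ 2 ≤ K * (1 - q * x) * (α * (1 - q * x) ^ 2 - b)) :
    Reg D K (R₀ / 4) α b q c ε where
  hD := by linarith
  hK := h.hK
  hs₀ := by linarith [h.hR₀]
  hb := h.hb
  hq := h.hq.le
  hq1 := h.hq1
  hc := h.hc
  hε := h.hε
  hα := hα
  hα3 := by linarith [h.hα2]
  hεq := h.hεq
  hT := h.hT
  hT1 := h.hT1
  hKc := h.hKc
  hL := by
    intro R μ y z ω V hR hR4 hμ hy hy1 hz hz0 hω hω1 hV hV1 hαV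
    have hK := h.hK
    have hDp : 0 < D := by linarith
    set ρ := R / D with hρ
    have hRρ : R = ρ * D := by rw [hρ]; field_simp
    have hρ0 : R₀ / 4 ≤ ρ := by rw [hρ, le_div_iff₀ hDp]; exact hR
    have hρ1 : ρ ≤ 1 := by rw [hρ, div_le_one hDp]; exact hR4
    have main := h.hL (4 * ρ) μ y z ω V (by linarith) (by linarith) hμ hy hy1 hz hz0 hω hω1
      hV hV1 hαV
    have hy2 : α * y ^ 2 = z + b + c * μ := by rw [hz]; ring
    have hzω : z * ω ≤ z * (1 - q * (1 - z)) := mul_le_mul_of_nonneg_left hω1 hz0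
    have hKzω : K * z * ω ≤ K * z * (1 - q * (1 - z)) := by
      have := mul_le_mul_of_nonneg_left hzω (by linarith : (0:ℝ) ≤ K)
      linarith
    have h0 := P0 z μ y hz0 hμ hy hy1 hy2
    have h3 := P3 z μ y hz0 hμ hy hy1 hy2
    have hDD : 0 ≤ y ^ 2 - K * z * ω := by linarith
    have hbr : 0 ≤ ρ * (y ^ 2 - K * z * ω) - μ * z := by
      have h4 : R₀ / 4 * (y ^ 2 - K * z * (1 - q * (1 - z))) ≤ R₀ / 4 * (y ^ 2 - K * z * ω) :=
        mul_le_mul_of_nonneg_left (by linarith) (by linarith [h.hR₀])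
      have h5 : R₀ / 4 * (y ^ 2 - K * z * ω) ≤ ρ * (y ^ 2 - K * z * ω) :=
        mul_le_mul_of_nonneg_right hρ0 hDD
      linarith
    have h6 := mul_nonneg (by linarith : (0:ℝ) ≤ D - 4) hbr
    have e : R * (y ^ 2 - K * z * ω) - D * μ * z - 2 * α * y * (V - K * y * z - μ * y)
        = (4 * ρ * (y ^ 2 - K * z * ω) - 4 * μ * z - 2 * α * y * (V - K * y * z - μ * y))
          + (D - 4) * (ρ * (y ^ 2 - K * z * ω) - μ * z) := by
      rw [hRρ]; ring
    rw [e]
    linarith
  hU := by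
    intro _ R μ y z ω v hR hR4 hμ hy hy1 hz hv hv1 hyv hωR
    have hK := h.hK
    have hDp : 0 < D := by linarith
    have hq := h.hq
    have hq1 := h.hq1
    have hc := h.hc
    set ρ := R / D with hρ
    have hRρ : R = ρ * D := by rw [hρ]; field_simp
    have hρ0 : R₀ / 4 ≤ ρ := by rw [hρ, le_div_iff₀ hDp]; exact hR
    have hρ1 : ρ ≤ 1 := by rw [hρ, div_le_one hDp]; exact hR4
    have hρω : ρ * (α * z ^ 2 - b) - c * μ ≤ ρ * ω := by
      have h1 : D * (ρ * (α * z ^ 2 - b) - c * μ) ≤ D * (ρ * ω) := by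
        rw [hRρ] at hωR
        linarith
      exact le_of_mul_le_mul_left h1 hDp
    have main := h.hU (4 * ρ) μ y z ω v (by linarith) (by linarith) hμ hy hy1 hz hv hv1 hyv
      (by linarith)
    have hz1 : 1 - q ≤ z := by rw [hz]; nlinarith
    have hz0 : 0 ≤ z := by linarith
    have hUI := UI (1 - y) (by linarith) (by linarith)
    have e1 : 1 - q * (1 - y) = z := hz.symm
    rw [e1] at hUI
    have e2 : 1 - (1 - y) = y := by ring
    rw [e2] at hUI
    -- bracket
    have hbr : 0 ≤ μ * z - ρ * (y ^ 2 - K * z * ω) := by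
      have h1 : K * z * (ρ * (α * z ^ 2 - b) - c * μ) ≤ K * z * (ρ * ω) :=
        mul_le_mul_of_nonneg_left hρω (by positivity)
      have h2 : ρ * y ^ 2 ≤ ρ * (K * z * (α * z ^ 2 - b)) :=
        mul_le_mul_of_nonneg_left hUI (by linarith [h.hR₀])
      have h3 : K * c * (μ * z) ≤ 1 * (μ * z) := by
        apply mul_le_mul_of_nonneg_right _ (by positivity)
        linarith [h.hKc, h.hε]
      linarith
    have h6 := mul_nonneg (by linarith : (0:ℝ) ≤ D - 4) hbr
    have e : q * (v ^ 2 - K * y * z - μ * y) - R * (y ^ 2 - K * z * ω) + D * μ * z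
        = (q * (v ^ 2 - K * y * z - μ * y) - 4 * ρ * (y ^ 2 - K * z * ω) + 4 * μ * z)
          + (D - 4) * (μ * z - ρ * (y ^ 2 - K * z * ω)) := by
      rw [hRρ]; ring
    rw [e]
    linarith

/-- The simple region (no upper constraint) for large `K`. -/
theorem simple {D K s₀ : ℝ} (hD : 1 ≤ D) (hK : 2 ≤ K) (hs : 9 / 10 ≤ s₀)
    (hP : 10 ≤ K * (s₀ * D)) :
    Reg D K s₀ (11 / 5 / K) (6 / 5 / K) 0 (9 / 10 / K) (1 / 100) := by
  have hKp : 0 < K := by linarith
  refine ⟨hD, by linarith, by linarith, by positivity, le_rfl, by norm_num, by positivity,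
    by norm_num, by positivity, ?_, by norm_num, ?_, ?_, ?_, ?_, fun h => absurd h (lt_irrefl _)⟩
  · rw [div_le_iff₀ hKp]; linarith
  · have : K * (11 / 5 / K - 6 / 5 / K) = 1 := by field_simp; norm_num
    linarith
  · have : 11 / 5 / K - 6 / 5 / K = 1 / K := by ring
    rw [this, div_le_one hKp]; linarith
  · have : K * (9 / 10 / K) = 9 / 10 := by field_simp
    rw [this]; norm_num
  · intro R μ y z ω V hR hR4 hμ hy hy1 hz hz0 hω hω1 hV hV1 hαV
    have hR0 : 0 ≤ R := le_trans (by positivity) hR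
    -- ζ = K z
    set ζ := K * z with hζ
    have hζ0 : 0 ≤ ζ := by positivity
    have hζe : ζ = 11 / 5 * y ^ 2 - 6 / 5 - 9 / 10 * μ := by
      rw [hζ, hz]; field_simp
    have hzζ : z = ζ / K := by rw [hζ]; field_simp
    have hω1' : ω ≤ 1 := by linarith
    set P := K * R with hP'
    have hP10 : 10 ≤ P := le_trans hP (mul_le_mul_of_nonneg_left hR hKp.le)
    -- multiply by K
    have goal : K * (1 / 100 * μ) ≤ P * (y ^ 2 - ζ) - D * μ * ζ
        - 22 / 5 * y * (1 - y * ζ - μ * y) := by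
      have hDP : D * (9 / 5) ≤ P := by
        have h1 : 2 * (9 / 10 * D) ≤ K * R :=
          mul_le_mul hK (le_trans (mul_le_mul_of_nonneg_right hs (by linarith)) hR)
            (by positivity) hKp.le
        linarith
      have hKP : K * (9 / 10) ≤ P := by
        have h1 : K * (9 / 10) ≤ K * R := by
          apply mul_le_mul_of_nonneg_left _ hKp.le
          have : s₀ * 1 ≤ s₀ * D := mul_le_mul_of_nonneg_left hD (by linarith)
          linarith
        exact h1
      have hy2 : y ^ 2 ≤ 1 := by nlinarith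
      have hζ1 : ζ ≤ 1 := by rw [hζe]; nlinarith
      have hμζ : 0 ≤ μ * ζ := by positivity
      have hμζ1 : μ * ζ ≤ μ := by nlinarith
      have e1 : y ^ 2 - ζ = 6 / 5 * (1 - y ^ 2) + 9 / 10 * μ := by rw [hζe]; ring
      rw [e1]
      have e2 : 1 - y * ζ - μ * y
          = (1 - y) * (1 + 11 / 5 * y + 11 / 5 * y ^ 2) - 1 / 10 * (μ * y) := by
        rw [hζe]; ring
      rw [e2]
      -- y-part
      have h1 : 22 / 5 * y * ((1 - y) * (1 + 11 / 5 * y + 11 / 5 * y ^ 2))
          ≤ 10 * (6 / 5 * (1 - y ^ 2)) := by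
        have h2 : 22 / 5 * y * (1 + 11 / 5 * y + 11 / 5 * y ^ 2) ≤ 12 * (1 + y) := by
          nlinarith [mul_nonneg hy (sub_nonneg.2 hy1), mul_nonneg (mul_nonneg hy hy) (sub_nonneg.2 hy1)]
        have h3 := mul_le_mul_of_nonneg_left h2 (sub_nonneg.2 hy1)
        nlinarith
      have h4 : 10 * (6 / 5 * (1 - y ^ 2)) ≤ P * (6 / 5 * (1 - y ^ 2)) :=
        mul_le_mul_of_nonneg_right hP10 (by nlinarith)
      -- μ-part
      have h5 : K * (1 / 100 * μ) + D * μ * ζ ≤ P * (9 / 10 * μ) := by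
        have h6 : D * μ * ζ ≤ D * μ := by
          have := mul_le_mul_of_nonneg_left hμζ1 (by linarith : (0:ℝ) ≤ D)
          linarith
        have h7 := mul_le_mul_of_nonneg_right hDP hμ.le
        have h8 := mul_le_mul_of_nonneg_right hKP hμ.le
        nlinarith
      have h9 : 0 ≤ 22 / 5 * y * (1 / 10 * (μ * y)) := by positivity
      nlinarith
    have hzω : K * z * ω ≤ ζ := by
      have : ζ * ω ≤ ζ * 1 := mul_le_mul_of_nonneg_left hω1' hζ0
      rw [mul_one] at this
      exact this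
    have h1 : K * (R * (y ^ 2 - ζ)) ≤ K * (R * (y ^ 2 - K * z * ω)) := by
      apply mul_le_mul_of_nonneg_left _ hKp.le
      exact mul_le_mul_of_nonneg_left (by linarith) hR0
    have h2 : K * (2 * (11 / 5 / K) * y * (V - K * y * z - μ * y))
        ≤ 22 / 5 * y * (1 - y * ζ - μ * y) := by
      have e : K * (2 * (11 / 5 / K) * y * (V - K * y * z - μ * y))
          = 22 / 5 * y * (V - y * ζ - μ * y) := by
        rw [hζ]; field_simp; ring
      rw [e]
      apply mul_le_mul_of_nonneg_left _ (by positivity)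
      linarith
    have h3 : K * (D * μ * z) = D * μ * ζ := by rw [hζ]; ring
    have h4 : K * (1 / 100 * μ) ≤ K * (R * (y ^ 2 - K * z * ω) - D * μ * z
        - 2 * (11 / 5 / K) * y * (V - K * y * z - μ * y)) := by
      have e : K * (R * (y ^ 2 - K * z * ω) - D * μ * z
        - 2 * (11 / 5 / K) * y * (V - K * y * z - μ * y)) = K * (R * (y ^ 2 - K * z * ω))
        - K * (D * μ * z) - K * (2 * (11 / 5 / K) * y * (V - K * y * z - μ * y)) := by ring
      rw [e, h3]
      have e3 : P * (y ^ 2 - ζ) = K * (R * (y ^ 2 - ζ)) := by rw [hP']; ring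
      rw [e3] at goal
      linarith
    exact le_of_mul_le_mul_left h4 hKp

end Pool.Agent.N167.TR
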