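import Pool.Agent.N167.TR.Def

namespace Pool.Agent.N167.TR

/-- The polynomial inequalities on the boundary of the invariant region, ratio of the viscous
scales `D`. -/
structure Reg (D K s₀ α b q c ε : ℝ) : Prop where
  hD : 1 ≤ D
  hK : 1 ≤ K
  hs₀ : 0 < s₀
  hb : 0 < b
  hq : 0 ≤ q
  hq1 : q < 1
  hc : 0 < c
  hε : 0 < ε
  hα : 0 < α
  hα3 : α ≤ 3
  hεq : ε ≤ 1 - q
  hT : 1 ≤ K * (α - b)
  hT1 : α - b ≤ 1
  hKc : K * c + ε ≤ 1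
  hL : ∀ R μ y z ω V : ℝ, s₀ * D ≤ R → R ≤ D → 0 < μ → 0 ≤ y → y ≤ 1 →
    z = α * y ^ 2 - b - c * μ → 0 ≤ z → 0 ≤ ω → ω ≤ 1 - q * (1 - z) → 0 ≤ V → V ≤ 1 →
    α * V ≤ y + b + c * μ →
    ε * μ ≤ R * (y ^ 2 - K * z * ω) - D * μ * z - 2 * α * y * (V - K * y * z - μ * y)
  hU : 0 < q → ∀ R μ y z ω v : ℝ, s₀ * D ≤ R → R ≤ D → 0 < μ → 0 ≤ y → y ≤ 1 →
    z = 1 - q * (1 - y) → 0 ≤ v → v ≤ 1 → y ≤ 1 - q * (1 - v) →
    R * (α * z ^ 2 - b) - D * c * μ ≤ R * ω →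
    ε * μ ≤ q * (v ^ 2 - K * y * z - μ * y) - R * (y ^ 2 - K * z * ω) + D * μ * z

theorem alg_T {D K s₀ α b q c ε : ℝ} (h : Reg D K s₀ α b q c ε) {μ r κ ω v F : ℝ} (hμ : 0 < μ)
    (hr : 0 < r) (hκ : K - ε / 16 * μ ≤ κ) (hω : 0 ≤ ω) (hω1 : ω ≤ 1) (hL : α - b - c * μ ≤ ω)
    (hv : 0 ≤ v) (hv1 : v ≤ 1) (hF : F ≤ ε / 16 * μ * r) :
    F + r * (v ^ 2 - κ * 1 * ω - μ * 1) < 0 := by
  have hK := h.hK
  have hε := h.hε
  have hεμ : 0 < ε * μ := mul_pos hε hμ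
  have hv2 : v ^ 2 ≤ 1 := by nlinarith
  have key : 1 + ε * μ ≤ K * ω + μ := by
    rcases le_total (c * μ) (α - b) with h1 | h1
    · have h2 : K * (α - b - c * μ) ≤ K * ω := mul_le_mul_of_nonneg_left hL (by linarith)
      have h3 : (K * c + ε) * μ ≤ 1 * μ := mul_le_mul_of_nonneg_right h.hKc hμ.le
      have h4 := h.hT
      nlinarith
    · have h2 : K * (α - b) ≤ K * (c * μ) := mul_le_mul_of_nonneg_left h1 (by linarith)
      have h3 : (K * c + ε) * μ ≤ 1 * μ := mul_le_mul_of_nonneg_right h.hKc hμ.le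
      have h4 := h.hT
      have h5 : 0 ≤ K * ω := mul_nonneg (by linarith) hω
      nlinarith
  have h6 : (K - ε / 16 * μ) * ω ≤ κ * ω := mul_le_mul_of_nonneg_right hκ hω
  have h7 : ε / 16 * μ * ω ≤ ε / 16 * μ * 1 :=
    mul_le_mul_of_nonneg_left hω1 (by positivity)
  have h8 : v ^ 2 - κ * 1 * ω - μ * 1 ≤ - (15 / 16 * (ε * μ)) := by nlinarith
  have h9 : r * (v ^ 2 - κ * 1 * ω - μ * 1) ≤ r * (- (15 / 16 * (ε * μ))) :=
    mul_le_mul_of_nonneg_left h8 hr.le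
  have h10 : 0 < r * (ε * μ) := mul_pos hr hεμ
  nlinarith

theorem alg_L {D K s₀ α b q c ε : ℝ} (h : Reg D K s₀ α b q c ε)
    {μ r κ r₁ κ₁ μ₁ y z z' ω v F F₁ : ℝ}
    (hμ : 0 < μ) (hr : 0 < r) (hR : s₀ * D * r ≤ r₁) (hR4 : r₁ ≤ D * r)
    (hμ₁ : μ₁ * r₁ = D * (μ * r)) (hκ0 : 0 ≤ κ)
    (hκ : K - ε / 16 * μ ≤ κ) (hκ₁ : κ₁ ≤ K) (hy : 0 ≤ y) (hy1 : y ≤ 1)
    (hz : z = α * y ^ 2 - b - c * μ) (hz0 : 0 ≤ z) (hz1 : z ≤ 1) (hzz : z ≤ z') (hω : 0 ≤ ω)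
    (hω1 : ω ≤ 1 - q * (1 - z))
    (hv : 0 ≤ v) (hv1 : v ≤ 1) (hv2 : α * v ^ 2 ≤ y + b + c * μ)
    (hF : F ≤ ε / 16 * μ * r) (hF₁ : 0 ≤ F₁) :
    0 < F₁ + r₁ * (y ^ 2 - κ₁ * z * ω - μ₁ * z)
      - 2 * α * y * (F + r * (v ^ 2 - κ * y * z' - μ * y)) := by
  have hε := h.hε
  have hb := h.hb
  have hα := h.hα
  have hD := h.hD
  have hα3 := h.hα3
  set R := r₁ / r with hRdef
  have hRr : r₁ = R * r := by rw [hRdef]; field_simp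
  have hR1 : s₀ * D ≤ R := by rw [hRdef, le_div_iff₀ hr]; exact hR
  have hR2 : R ≤ D := by rw [hRdef, div_le_iff₀ hr]; exact hR4
  have hs0 := h.hs₀
  have hR0 : 0 ≤ R := le_trans (by positivity) hR1
  have hV1 : v ^ 2 ≤ 1 := by nlinarith
  have main := h.hL R μ y z ω (v ^ 2) hR1 hR2 hμ hy hy1 hz hz0 hω hω1 (sq_nonneg v) hV1 hv2
  have hzω : 0 ≤ z * ω := mul_nonneg hz0 hω
  have e1 : κ₁ * (z * ω) ≤ K * (z * ω) := mul_le_mul_of_nonneg_right hκ₁ hzω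
  have e2 : R * (κ₁ * (z * ω)) ≤ R * (K * (z * ω)) := mul_le_mul_of_nonneg_left e1 hR0
  have hyy : 0 ≤ y * (y * z) := mul_nonneg hy (mul_nonneg hy hz0)
  have hyy1 : y * (y * z) ≤ 1 := by
    have h1 : y * z ≤ 1 * 1 := mul_le_mul hy1 hz1 hz0 (by norm_num)
    have h2 : y * (y * z) ≤ 1 * 1 := mul_le_mul hy1 (by linarith) (mul_nonneg hy hz0) (by norm_num)
    linarith
  have e3 : (K - ε / 16 * μ) * (y * (y * z)) ≤ κ * (y * (y * z)) :=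
    mul_le_mul_of_nonneg_right hκ hyy
  have e3' : κ * (y * (y * z)) ≤ κ * (y * (y * z')) := by
    apply mul_le_mul_of_nonneg_left _ hκ0
    apply mul_le_mul_of_nonneg_left _ hy
    exact mul_le_mul_of_nonneg_left hzz hy
  have hεμ : 0 < ε * μ := mul_pos hε hμ
  have e4 : ε / 16 * μ * (y * (y * z)) ≤ ε / 16 * μ * 1 :=
    mul_le_mul_of_nonneg_left hyy1 (by positivity)
  have e5 : K * (y * (y * z)) - ε / 16 * μ ≤ κ * (y * (y * z')) := by nlinarith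
  have e6 : 2 * α * (K * (y * (y * z)) - ε / 16 * μ) ≤ 2 * α * (κ * (y * (y * z'))) :=
    mul_le_mul_of_nonneg_left e5 (by positivity)
  have e7 : 2 * α * (ε / 16 * μ) ≤ 6 * (ε / 16 * μ) :=
    mul_le_mul_of_nonneg_right (by linarith) (by positivity)
  have e8 : 10 / 16 * (ε * μ) ≤ R * (y ^ 2 - κ₁ * z * ω) - D * μ * z
      - 2 * α * y * (v ^ 2 - κ * y * z' - μ * y) := by nlinarith
  have e9 : r * (10 / 16 * (ε * μ)) ≤ r * (R * (y ^ 2 - κ₁ * z * ω) - D * μ * z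
      - 2 * α * y * (v ^ 2 - κ * y * z' - μ * y)) := mul_le_mul_of_nonneg_left e8 hr.le
  have e10 : y * F ≤ 1 * (ε / 16 * μ * r) := by
    rcases le_total F 0 with h0 | h0
    · have : y * F ≤ 0 := mul_nonpos_of_nonneg_of_nonpos hy h0
      have : 0 ≤ ε / 16 * μ * r := by positivity
      linarith
    · exact mul_le_mul hy1 hF h0 (by norm_num)
  have e11 : 2 * α * (y * F) ≤ 6 * (ε / 16 * μ * r) := by
    have h1 : 2 * α * (y * F) ≤ 2 * α * (1 * (ε / 16 * μ * r)) :=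
      mul_le_mul_of_nonneg_left e10 (by positivity)
    have h2 : 2 * α * (1 * (ε / 16 * μ * r)) ≤ 6 * (1 * (ε / 16 * μ * r)) :=
      mul_le_mul_of_nonneg_right (by linarith) (by positivity)
    linarith
  have e12 : r₁ * (y ^ 2 - κ₁ * z * ω - μ₁ * z)
      = r * (R * (y ^ 2 - κ₁ * z * ω)) - r * (D * μ * z) := by
    have : r₁ * (y ^ 2 - κ₁ * z * ω - μ₁ * z) = r₁ * (y ^ 2 - κ₁ * z * ω) - (μ₁ * r₁) * z := by ring
    rw [this, hμ₁, hRr]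
    ring
  have hrεμ : 0 < r * (ε * μ) := mul_pos hr hεμ
  have e13 : F₁ + r₁ * (y ^ 2 - κ₁ * z * ω - μ₁ * z)
      - 2 * α * y * (F + r * (v ^ 2 - κ * y * z' - μ * y))
      = F₁ - 2 * α * (y * F) + r * (R * (y ^ 2 - κ₁ * z * ω) - D * μ * z
      - 2 * α * y * (v ^ 2 - κ * y * z' - μ * y)) := by
    rw [e12]; ring
  rw [e13]
  nlinarith

theorem alg_U {D K s₀ α b q c ε : ℝ} (h : Reg D K s₀ α b q c ε) (hq : 0 < q)
    {μ r κ r₁ κ₁ μ₁ y z z' ω v F F₁ : ℝ}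
    (hμ : 0 < μ) (hr : 0 < r) (hR : s₀ * D * r ≤ r₁) (hR4 : r₁ ≤ D * r)
    (hμ₁ : μ₁ * r₁ = D * (μ * r)) (hκ0 : 0 ≤ κ)
    (hκ : κ ≤ K) (hκ₁ : K - ε / (16 * D) * μ ≤ κ₁) (hy : 0 ≤ y) (hy1 : y ≤ 1)
    (hz : z = 1 - q * (1 - y)) (hzz : z' ≤ z) (hω : 0 ≤ ω) (hω1 : ω ≤ 1)
    (hωL : α * z ^ 2 - b - c * μ₁ ≤ ω)
    (hv : 0 ≤ v) (hv1 : v ≤ 1) (hyv : y ≤ 1 - q * (1 - v))
    (hF : 0 ≤ F) (hF₁ : F₁ ≤ ε / (16 * D) * μ₁ * r₁) :
    0 < q * (F + r * (v ^ 2 - κ * y * z' - μ * y))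
      - (F₁ + r₁ * (y ^ 2 - κ₁ * z * ω - μ₁ * z)) := by
  have hε := h.hε
  have hD := h.hD
  have hD0 : 0 < D := by linarith
  have hq1 := h.hq1
  set R := r₁ / r with hRdef
  have hRr : r₁ = R * r := by rw [hRdef]; field_simp
  have hR1 : s₀ * D ≤ R := by rw [hRdef, le_div_iff₀ hr]; exact hR
  have hR2 : R ≤ D := by rw [hRdef, div_le_iff₀ hr]; exact hR4
  have hs0 := h.hs₀
  have hR0 : 0 ≤ R := le_trans (by positivity) hR1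
  have hz0 : 0 ≤ z := by rw [hz]; nlinarith
  have hz1 : z ≤ 1 := by rw [hz]; nlinarith
  have hRμ : R * μ₁ = D * μ := by
    have : R * μ₁ * r = D * μ * r := by
      calc R * μ₁ * r = μ₁ * (R * r) := by ring
        _ = μ₁ * r₁ := by rw [← hRr]
        _ = D * μ * r := by rw [hμ₁]; ring
    exact mul_right_cancel₀ hr.ne' this
  have hωR : R * (α * z ^ 2 - b) - D * c * μ ≤ R * ω := by
    have h1 := mul_le_mul_of_nonneg_left hωL hR0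
    have h2 : R * (α * z ^ 2 - b - c * μ₁) = R * (α * z ^ 2 - b) - c * (R * μ₁) := by ring
    rw [h2, hRμ] at h1
    linarith
  have main := h.hU hq R μ y z ω v hR1 hR2 hμ hy hy1 hz hv hv1 hyv hωR
  have hyz : 0 ≤ y * z := mul_nonneg hy hz0
  have hεμ : 0 < ε * μ := mul_pos hε hμ
  have e0 : κ * (y * z') ≤ κ * (y * z) :=
    mul_le_mul_of_nonneg_left (mul_le_mul_of_nonneg_left hzz hy) hκ0
  have e1 : κ * (y * z) ≤ K * (y * z) := mul_le_mul_of_nonneg_right hκ hyz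
  have e2 : q * (κ * (y * z')) ≤ q * (K * (y * z)) := mul_le_mul_of_nonneg_left (by linarith) hq.le
  have hzω : 0 ≤ z * ω := mul_nonneg hz0 hω
  have hzω1 : z * ω ≤ 1 := by
    have h1 : z * ω ≤ 1 * 1 := mul_le_mul hz1 hω1 hω (by norm_num)
    linarith
  set δ := ε / (16 * D) with hδ
  have hδ0 : 0 < δ := by positivity
  have hδD : D * δ = ε / 16 := by rw [hδ]; field_simp
  have e3 : (K - δ * μ) * (z * ω) ≤ κ₁ * (z * ω) := mul_le_mul_of_nonneg_right hκ₁ hzω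
  have e4 : δ * μ * (z * ω) ≤ δ * μ * 1 :=
    mul_le_mul_of_nonneg_left hzω1 (by positivity)
  have e5 : K * (z * ω) - δ * μ ≤ κ₁ * (z * ω) := by nlinarith
  have e6 : R * (K * (z * ω) - δ * μ) ≤ R * (κ₁ * (z * ω)) := mul_le_mul_of_nonneg_left e5 hR0
  have e7 : R * (δ * μ) ≤ ε / 16 * μ := by
    have : R * (δ * μ) ≤ D * (δ * μ) := mul_le_mul_of_nonneg_right hR2 (by positivity)
    have e : D * (δ * μ) = ε / 16 * μ := by rw [← hδD]; ring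
    linarith
  have e8 : 15 / 16 * (ε * μ) ≤ q * (v ^ 2 - κ * y * z' - μ * y) - R * (y ^ 2 - κ₁ * z * ω)
      + D * μ * z := by nlinarith
  have e9 : r * (15 / 16 * (ε * μ)) ≤ r * (q * (v ^ 2 - κ * y * z' - μ * y)
      - R * (y ^ 2 - κ₁ * z * ω) + D * μ * z) := mul_le_mul_of_nonneg_left e8 hr.le
  have hF₁' : F₁ ≤ ε / 16 * (μ * r) := by
    have : δ * μ₁ * r₁ = ε / 16 * (μ * r) := by
      calc δ * μ₁ * r₁ = δ * (μ₁ * r₁) := by ring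
        _ = D * δ * (μ * r) := by rw [hμ₁]; ring
        _ = _ := by rw [hδD]
    rw [this] at hF₁
    exact hF₁
  have hqF : 0 ≤ q * F := mul_nonneg hq.le hF
  have hrεμ : 0 < r * (ε * μ) := mul_pos hr hεμ
  have e12 : r₁ * (y ^ 2 - κ₁ * z * ω - μ₁ * z)
      = r * (R * (y ^ 2 - κ₁ * z * ω)) - r * (D * μ * z) := by
    have : r₁ * (y ^ 2 - κ₁ * z * ω - μ₁ * z) = r₁ * (y ^ 2 - κ₁ * z * ω) - (μ₁ * r₁) * z := by ring
    rw [this, hμ₁, hRr]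
    ring
  have e13 : q * (F + r * (v ^ 2 - κ * y * z' - μ * y))
      - (F₁ + r₁ * (y ^ 2 - κ₁ * z * ω - μ₁ * z))
      = q * F - F₁ + r * (q * (v ^ 2 - κ * y * z' - μ * y)
      - R * (y ^ 2 - κ₁ * z * ω) + D * μ * z) := by
    rw [e12]; ring
  rw [e13]
  nlinarith

theorem alg_U0 {D K s₀ α b q c ε : ℝ} (h : Reg D K s₀ α b q c ε) {μ r κ ω F : ℝ}
    (hμ : 0 < μ) (hr : 0 < r) (hκ : 0 ≤ κ) (hω : 0 ≤ ω) (hF : F ≤ ε / 16 * μ * r) :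
    F + r * ((0:ℝ) ^ 2 - κ * (1 - q) * ω - μ * (1 - q)) < 0 := by
  have hε := h.hε
  have hq1 := h.hq1
  have h1 : 0 ≤ r * (κ * (1 - q) * ω) := by
    have : 0 ≤ 1 - q := by linarith
    positivity
  have h2 : ε * (μ * r) ≤ (1 - q) * (μ * r) := mul_le_mul_of_nonneg_right h.hεq (by positivity)
  have h3 : 0 < ε * (μ * r) := by positivity
  nlinarith

end Pool.Agent.N167.TR
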